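import Mathlib

/-!
Cyclic carry sequences: the combinatorics of zero-sum sets of binary digits for the
Dobbertin exponent.
-/

open Finset

namespace Dob

/-- The window sum. -/
def V (m : ℕ) (f : ℕ → ℤ) (p : ℕ) : ℤ := ∑ t ∈ range m, 2 ^ t * f (p + t)

theorem V_tele (g f : ℕ → ℤ) (h : ∀ p, g p + f p = 2 * g (p + 1)) (m p : ℕ) :
    V m f p = 2 ^ m * g (p + m) - g p := by
  induction m with
  | zero => simp [V]
  | succ m ih =>
    have h1 : V (m + 1) f p = V m f p + 2 ^ m * f (p + m) := by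
      unfold V; rw [Finset.sum_range_succ]
    have h2 := h (p + m)
    have h3 : f (p + m) = 2 * g (p + m + 1) - g (p + m) := by linarith
    rw [h1, ih, h3, pow_succ, ← Nat.add_assoc]
    ring

theorem V_nonneg (m : ℕ) (f : ℕ → ℤ) (p : ℕ) (h : ∀ p, 0 ≤ f p) : 0 ≤ V m f p :=
  Finset.sum_nonneg (fun t _ => mul_nonneg (by positivity) (h _))

theorem V_add (m : ℕ) (f g : ℕ → ℤ) (p : ℕ) : V m (fun q => f q + g q) p = V m f p + V m g p := by
  unfold V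
  rw [← Finset.sum_add_distrib]
  exact Finset.sum_congr rfl (fun t _ => by ring)

theorem V_sub (m : ℕ) (f g : ℕ → ℤ) (p : ℕ) : V m (fun q => f q - g q) p = V m f p - V m g p := by
  unfold V
  rw [← Finset.sum_sub_distrib]
  exact Finset.sum_congr rfl (fun t _ => by ring)

theorem V_smul (m : ℕ) (a : ℤ) (f : ℕ → ℤ) (p : ℕ) : V m (fun q => a * f q) p = a * V m f p := by
  unfold V
  rw [Finset.mul_sum]
  exact Finset.sum_congr rfl (fun t _ => by ring)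

theorem V_shift (m : ℕ) (f : ℕ → ℤ) (p s : ℕ) : V m (fun q => f (q + s)) p = V m f (p + s) := by
  unfold V
  exact Finset.sum_congr rfl (fun t _ => by
    have h : p + t + s = p + s + t := by ring
    simp only [h])

theorem V_one (m : ℕ) (p : ℕ) : V m (fun _ => 1) p = 2 ^ m - 1 := by
  have := V_tele (fun _ => 1) (fun _ => 1) (fun p => by norm_num) m p
  rw [this]; ring

theorem V_eq_zero (m : ℕ) (f : ℕ → ℤ) (p : ℕ) (h : ∀ p, 0 ≤ f p) (h0 : V m f p = 0) :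
    ∀ t < m, f (p + t) = 0 := by
  intro t ht
  unfold V at h0
  rw [Finset.sum_eq_zero_iff_of_nonneg
    (fun t _ => mul_nonneg (by positivity) (h _))] at h0
  have := h0 t (Finset.mem_range.mpr ht)
  rcases mul_eq_zero.mp this with h1 | h1
  · exact absurd h1 (by positivity)
  · exact h1

/-- If a window of full period vanishes, the sequence vanishes. -/
theorem per_zero (m : ℕ) (hm : 0 < m) (f : ℕ → ℤ) (hp : ∀ p, f (p + m) = f p) (p : ℕ)
    (h0 : ∀ t < m, f (p + t) = 0) : ∀ q, f q = 0 := by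
  have hpp : ∀ j q, f (q + j * m) = f q := by
    intro j
    induction j with
    | zero => intro q; simp
    | succ j ih =>
      intro q
      rw [show q + (j + 1) * m = (q + j * m) + m by ring, hp, ih]
  intro q
  -- find t < m with p + t ≡ q
  have h1 : f q = f (q + p * m) := (hpp p q).symm
  have hge : p ≤ q + p * m := by nlinarith
  obtain ⟨d, hd⟩ := Nat.exists_eq_add_of_le hge
  have h2 : f (p + d) = f (p + d % m) := by
    conv_lhs => rw [← Nat.mod_add_div d m]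
    rw [show p + (d % m + m * (d / m)) = (p + d % m) + (d / m) * m by ring, hpp]
  rw [h1, hd, h2]
  exact h0 _ (Nat.mod_lt _ hm)

theorem ebound_arith (Q v κ : ℤ) (c0 c1 c2 c3 c4 a0 a1 a2 a3 a4 b0 b1 b2 b3 b4 : ℤ)
    (hc0 : c0 = 0 ∨ c0 = 1) (hc1 : c1 = 0 ∨ c1 = 1) (hc2 : c2 = 0 ∨ c2 = 1)
    (hc3 : c3 = 0 ∨ c3 = 1) (hc4 : c4 = 0 ∨ c4 = 1)
    (ha0 : 0 ≤ a0) (ha1 : 0 ≤ a1) (ha2 : 0 ≤ a2) (ha3 : 0 ≤ a3) (ha4 : 0 ≤ a4)
    (hb0 : 0 ≤ b0) (hb1 : 0 ≤ b1) (hb2 : 0 ≤ b2) (hb3 : 0 ≤ b3) (hb4 : 0 ≤ b4)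
    (h0 : a0 + v + c0 = b0 + Q * c1) (h1 : a1 + v + c1 = b1 + Q * c2)
    (h2 : a2 + v + c2 = b2 + Q * c3) (h3 : a3 + v + c3 = b3 + Q * c4)
    (h4 : a4 + v + c4 = b4 + Q * c0)
    (hκ : (Q - 1) * κ = a0 + a1 + a2 + a3 + a4 + 3 * v) (hv0 : 0 ≤ v) (hv1 : v ≤ Q - 2)
    (hne : ¬ (v = 0 ∧ a0 + a1 + a2 + a3 + a4 = 0 ∧ b0 + b1 + b2 + b3 + b4 = 0)) :
    (c0 + c1 + c2 + c3 + c4 ≤ 3 → c0 + c1 + c2 + c3 + c4 + 1 ≤ κ) ∧
      (4 ≤ c0 + c1 + c2 + c3 + c4 → 4 ≤ κ) := by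
  have key : ∀ N : ℤ, κ ≤ N → (Q - 1) * κ ≤ (Q - 1) * N :=
    fun N h => mul_le_mul_of_nonneg_left h (by linarith)
  constructor
  · intro hC
    by_contra hcon
    push Not at hcon
    rcases hc0 with rfl | rfl <;> rcases hc1 with rfl | rfl <;> rcases hc2 with rfl | rfl <;>
      rcases hc3 with rfl | rfl <;> rcases hc4 with rfl | rfl
    all_goals first
      | linarith
      | (have := key 1 (by linarith); linarith)
      | (have := key 2 (by linarith); linarith)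
      | (have := key 3 (by linarith); linarith)
      | (have := key 0 (by linarith); exact hne ⟨by linarith, by linarith, by linarith⟩)
  · intro hC
    by_contra hcon
    push Not at hcon
    rcases hc0 with rfl | rfl <;> rcases hc1 with rfl | rfl <;> rcases hc2 with rfl | rfl <;>
      rcases hc3 with rfl | rfl <;> rcases hc4 with rfl | rfl
    all_goals first
      | linarith
      | (have := key 3 (by linarith); linarith)

/-- The data of a nonempty zero-sum set of digits. -/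
structure Blk (k : ℕ) (ξ η σ c κ : ℕ → ℤ) : Prop where
  ξ01 : ∀ p, ξ p = 0 ∨ ξ p = 1
  η01 : ∀ p, η p = 0 ∨ η p = 1
  σ01 : ∀ p, σ p = 0 ∨ σ p = 1
  c01 : ∀ p, c p = 0 ∨ c p = 1
  ξp : ∀ p, ξ (p + 5 * k) = ξ p
  ηp : ∀ p, η (p + 5 * k) = η p
  σp : ∀ p, σ (p + k) = σ p
  cp : ∀ p, c (p + 5 * k) = c p
  κp : ∀ p, κ (p + k) = κ p
  hc : ∀ p, c p + ξ p + σ p = η p + 2 * c (p + 1)
  hκ : ∀ p, κ p + (ξ p + ξ (p + k) + ξ (p + 2 * k) + ξ (p + 3 * k) + ξ (p + 4 * k)) + 3 * σ p =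
    2 * κ (p + 1)
  σne : ∃ p, σ p = 0
  ne : ∃ p, ξ p = 1 ∨ η p = 1

/-- the sum over the five strands -/
def S5 (k : ℕ) (f : ℕ → ℤ) (p : ℕ) : ℤ :=
  f p + f (p + k) + f (p + 2 * k) + f (p + 3 * k) + f (p + 4 * k)

theorem S5_per (k : ℕ) (f : ℕ → ℤ) (hf : ∀ p, f (p + 5 * k) = f p) (p : ℕ) :
    S5 k f (p + k) = S5 k f p := by
  unfold S5
  have h1 : p + k + k = p + 2 * k := by ring
  have h2 : p + k + 2 * k = p + 3 * k := by ring
  have h3 : p + k + 3 * k = p + 4 * k := by ring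
  have h4 : p + k + 4 * k = p + 5 * k := by ring
  rw [h1, h2, h3, h4, hf]
  ring

section

variable {k : ℕ} {ξ η σ c κ : ℕ → ℤ}

theorem nn01 {f : ℕ → ℤ} (h : ∀ p, f p = 0 ∨ f p = 1) : ∀ p, 0 ≤ f p := by
  intro p; rcases h p with h | h <;> simp [h]

theorem Blk.ebound (hk : 0 < k) (B : Blk k ξ η σ c κ) (p : ℕ) :
    (S5 k c p ≤ 3 → S5 k c p + 1 ≤ κ p) ∧ (4 ≤ S5 k c p → 4 ≤ κ p) := by
  -- the one-strand relation
  have hrel : ∀ q, V k ξ q + V k σ q + c q = V k η q + 2 ^ k * c (q + k) := by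
    intro q
    have h := V_tele c (fun q => ξ q + σ q - η q) (fun q => by have := B.hc q; linarith) k q
    rw [V_sub k (fun q => ξ q + σ q) η q, V_add k ξ σ q] at h
    linarith
  have hσV : ∀ q, V k σ (q + k) = V k σ q := by
    intro q
    rw [← V_shift]
    congr 1
    funext q
    exact B.σp q
  have hs1 : V k σ (p + k) = V k σ p := hσV p
  have hs2 : V k σ (p + 2 * k) = V k σ p := by
    rw [show p + 2 * k = p + k + k by ring, hσV, hσV]
  have hs3 : V k σ (p + 3 * k) = V k σ p := by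
    rw [show p + 3 * k = p + 2 * k + k by ring, hσV, hs2]
  have hs4 : V k σ (p + 4 * k) = V k σ p := by
    rw [show p + 4 * k = p + 3 * k + k by ring, hσV, hs3]
  have r0 := hrel p
  have r1 := hrel (p + k)
  have r2 := hrel (p + 2 * k)
  have r3 := hrel (p + 3 * k)
  have r4 := hrel (p + 4 * k)
  rw [hs1, show p + k + k = p + 2 * k by ring] at r1
  rw [hs2, show p + 2 * k + k = p + 3 * k by ring] at r2
  rw [hs3, show p + 3 * k + k = p + 4 * k by ring] at r3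
  rw [hs4, show p + 4 * k + k = p + 5 * k by ring, B.cp] at r4
  -- kappa
  have hκ : (2 ^ k - 1) * κ p = V k ξ p + V k ξ (p + k) + V k ξ (p + 2 * k) + V k ξ (p + 3 * k) +
      V k ξ (p + 4 * k) + 3 * V k σ p := by
    have h := V_tele κ (fun q => (ξ q + ξ (q + k) + ξ (q + 2 * k) + ξ (q + 3 * k) +
      ξ (q + 4 * k)) + 3 * σ q) (fun q => by have := B.hκ q; linarith) k p
    rw [B.κp] at h
    have h2 : V k (fun q => (ξ q + ξ (q + k) + ξ (q + 2 * k) + ξ (q + 3 * k) +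
      ξ (q + 4 * k)) + 3 * σ q) p = V k ξ p + V k ξ (p + k) + V k ξ (p + 2 * k) +
      V k ξ (p + 3 * k) + V k ξ (p + 4 * k) + 3 * V k σ p := by
      rw [← V_shift k ξ p k, ← V_shift k ξ p (2 * k), ← V_shift k ξ p (3 * k),
        ← V_shift k ξ p (4 * k), ← V_smul, ← V_add, ← V_add, ← V_add, ← V_add, ← V_add]
    rw [h2] at h
    linarith
  have hξ0 := nn01 B.ξ01
  have hη0 := nn01 B.η01
  have hσ0 := nn01 B.σ01
  have hv0 : 0 ≤ V k σ p := V_nonneg _ _ _ hσ0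
  have hv1 : V k σ p ≤ 2 ^ k - 2 := by
    by_contra hcon
    push Not at hcon
    have h1 : V k (fun q => 1 - σ q) p ≤ 0 := by
      have := V_sub k (fun _ => 1) σ p
      rw [V_one] at this
      rw [this]; linarith
    have hnn : ∀ q, 0 ≤ 1 - σ q := by
      intro q; rcases B.σ01 q with h | h <;> rw [h] <;> norm_num
    have h2 : V k (fun q => 1 - σ q) p = 0 := le_antisymm h1 (V_nonneg _ _ _ hnn)
    have h3 := V_eq_zero k _ p hnn h2
    have h4 := per_zero k hk (fun q => 1 - σ q) (fun q => by simp only [B.σp]) p h3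
    obtain ⟨q, hq⟩ := B.σne
    have := h4 q
    simp only [hq] at this
    norm_num at this
  have hne : ¬ (V k σ p = 0 ∧ V k ξ p + V k ξ (p + k) + V k ξ (p + 2 * k) + V k ξ (p + 3 * k) +
      V k ξ (p + 4 * k) = 0 ∧ V k η p + V k η (p + k) + V k η (p + 2 * k) + V k η (p + 3 * k) +
      V k η (p + 4 * k) = 0) := by
    rintro ⟨-, h1, h2⟩
    have gen : ∀ f : ℕ → ℤ, (∀ q, 0 ≤ f q) → (∀ q, f (q + 5 * k) = f q) →
        V k f p + V k f (p + k) + V k f (p + 2 * k) + V k f (p + 3 * k) + V k f (p + 4 * k) = 0 →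
        ∀ q, f q = 0 := by
      intro f hf hper hsum
      have n0 := V_nonneg k f p hf
      have n1 := V_nonneg k f (p + k) hf
      have n2 := V_nonneg k f (p + 2 * k) hf
      have n3 := V_nonneg k f (p + 3 * k) hf
      have n4 := V_nonneg k f (p + 4 * k) hf
      have z0 := V_eq_zero k f p hf (by linarith)
      have z1 := V_eq_zero k f (p + k) hf (by linarith)
      have z2 := V_eq_zero k f (p + 2 * k) hf (by linarith)
      have z3 := V_eq_zero k f (p + 3 * k) hf (by linarith)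
      have z4 := V_eq_zero k f (p + 4 * k) hf (by linarith)
      apply per_zero (5 * k) (by omega) f hper p
      intro t ht
      rcases lt_or_ge t k with h | h
      · exact z0 t h
      rcases lt_or_ge t (2 * k) with h' | h'
      · have := z1 (t - k) (by omega)
        rwa [show p + k + (t - k) = p + t by omega] at this
      rcases lt_or_ge t (3 * k) with h'' | h''
      · have := z2 (t - 2 * k) (by omega)
        rwa [show p + 2 * k + (t - 2 * k) = p + t by omega] at this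
      rcases lt_or_ge t (4 * k) with h3 | h3
      · have := z3 (t - 3 * k) (by omega)
        rwa [show p + 3 * k + (t - 3 * k) = p + t by omega] at this
      · have := z4 (t - 4 * k) (by omega)
        rwa [show p + 4 * k + (t - 4 * k) = p + t by omega] at this
    obtain ⟨q, hq⟩ := B.ne
    rcases hq with hq | hq
    · have := gen ξ hξ0 B.ξp h1 q
      rw [hq] at this; norm_num at this
    · have := gen η hη0 B.ηp h2 q
      rw [hq] at this; norm_num at this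
  exact ebound_arith (2 ^ k) (V k σ p) (κ p) (c p) (c (p + k)) (c (p + 2 * k)) (c (p + 3 * k))
    (c (p + 4 * k)) (V k ξ p) (V k ξ (p + k)) (V k ξ (p + 2 * k)) (V k ξ (p + 3 * k))
    (V k ξ (p + 4 * k)) (V k η p) (V k η (p + k)) (V k η (p + 2 * k)) (V k η (p + 3 * k))
    (V k η (p + 4 * k)) (B.c01 _) (B.c01 _) (B.c01 _) (B.c01 _) (B.c01 _)
    (V_nonneg _ _ _ hξ0) (V_nonneg _ _ _ hξ0) (V_nonneg _ _ _ hξ0) (V_nonneg _ _ _ hξ0)
    (V_nonneg _ _ _ hξ0) (V_nonneg _ _ _ hη0) (V_nonneg _ _ _ hη0) (V_nonneg _ _ _ hη0)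
    (V_nonneg _ _ _ hη0) (V_nonneg _ _ _ hη0) r0 r1 r2 r3 r4 hκ hv0 hv1 hne

/-- Indicator of a heavy block. -/
def hv (C : ℤ) : ℤ := if 4 ≤ C then 1 else 0

theorem hv_cases (C : ℤ) : (hv C = 0 ∧ C ≤ 3) ∨ (hv C = 1 ∧ 4 ≤ C) := by
  unfold hv
  by_cases h : 4 ≤ C
  · right; exact ⟨if_pos h, h⟩
  · left; exact ⟨if_neg h, by omega⟩

theorem strand0 {c x y c' : ℤ} (hc : c = 0 ∨ c = 1) (hx : x = 0 ∨ x = 1) (hy : y = 0 ∨ y = 1)
    (h : c + x + 0 = y + 2 * c') : c ≤ x + y ∧ (c = 0 → x = y) := by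
  rcases hc with rfl | rfl <;> rcases hx with rfl | rfl <;> rcases hy with rfl | rfl <;>
    (constructor <;> omega)

theorem strand1 {c x y c' : ℤ} (hc : c = 0 ∨ c = 1) (hx : x = 0 ∨ x = 1) (hy : y = 0 ∨ y = 1)
    (h : c + x + 1 = y + 2 * c') : 1 - c ≤ x + y ∧ (c = 1 → x = y) := by
  rcases hc with rfl | rfl <;> rcases hx with rfl | rfl <;> rcases hy with rfl | rfl <;>
    (constructor <;> omega)

theorem bd01 {x : ℤ} (h : x = 0 ∨ x = 1) : 0 ≤ x ∧ x ≤ 1 := by omega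

theorem single_arith0 {C0 C1 C2 C3 C4 X0 X1 X2 X3 X4 Y0 Y1 Y2 Y3 Y4 h K0 K1 : ℤ}
    (c0 : 0 ≤ C0 ∧ C0 ≤ 1) (c1 : 0 ≤ C1 ∧ C1 ≤ 1) (c2 : 0 ≤ C2 ∧ C2 ≤ 1)
    (c3 : 0 ≤ C3 ∧ C3 ≤ 1) (c4 : 0 ≤ C4 ∧ C4 ≤ 1)
    (x0 : 0 ≤ X0) (x1 : 0 ≤ X1) (x2 : 0 ≤ X2) (x3 : 0 ≤ X3) (x4 : 0 ≤ X4)
    (q0 : C0 ≤ X0 + Y0 ∧ (C0 = 0 → X0 = Y0)) (q1 : C1 ≤ X1 + Y1 ∧ (C1 = 0 → X1 = Y1))
    (q2 : C2 ≤ X2 + Y2 ∧ (C2 = 0 → X2 = Y2)) (q3 : C3 ≤ X3 + Y3 ∧ (C3 = 0 → X3 = Y3))
    (q4 : C4 ≤ X4 + Y4 ∧ (C4 = 0 → X4 = Y4))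
    (hκ : K0 + (X0 + X1 + X2 + X3 + X4) + 3 * 0 = 2 * K1)
    (hE1 : C0 + C1 + C2 + C3 + C4 ≤ 3 → C0 + C1 + C2 + C3 + C4 + 1 ≤ K0)
    (hE2 : 4 ≤ C0 + C1 + C2 + C3 + C4 → 4 ≤ K0)
    (hC : h = 0 ∧ C0 + C1 + C2 + C3 + C4 ≤ 3 ∨ h = 1 ∧ 4 ≤ C0 + C1 + C2 + C3 + C4) :
    ∃ D g : ℤ, D = 0 + h - 2 * g ∧ 0 ≤ D ∧ (D = 0 → 0 = h) ∧
      4 - 2 * K0 + (C0 + C1 + C2 + C3 + C4) + h + 3 * D ≤
        (X0 + X1 + X2 + X3 + X4) + (Y0 + Y1 + Y2 + Y3 + Y4) := by
  obtain ⟨q0, q0'⟩ := q0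
  obtain ⟨q1, q1'⟩ := q1
  obtain ⟨q2, q2'⟩ := q2
  obtain ⟨q3, q3'⟩ := q3
  obtain ⟨q4, q4'⟩ := q4
  obtain ⟨c0, -⟩ := c0
  obtain ⟨c1, -⟩ := c1
  obtain ⟨c2, -⟩ := c2
  obtain ⟨c3, -⟩ := c3
  obtain ⟨c4, -⟩ := c4
  rcases hC with ⟨hh, hC⟩ | ⟨hh, hC⟩
  · have hK := hE1 hC
    clear hE1 hE2
    subst hh
    refine ⟨0, 0, by norm_num, by norm_num, by norm_num, ?_⟩
    by_cases hK1 : 2 ≤ K0
    · clear q0' q1' q2' q3' q4'
      linarith
    · push Not at hK1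
      have hK2 : K0 ≤ 1 := by linarith [Int.add_one_le_of_lt hK1]
      have z0 : C0 = 0 := by linarith
      have z1 : C1 = 0 := by linarith
      have z2 : C2 = 0 := by linarith
      have z3 : C3 = 0 := by linarith
      have z4 : C4 = 0 := by linarith
      have w0 := q0' z0
      have w1 := q1' z1
      have w2 := q2' z2
      have w3 := q3' z3
      have w4 := q4' z4
      have hK3 : K0 = 1 := by linarith
      clear q0' q1' q2' q3' q4' q0 q1 q2 q3 q4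
      have : 1 ≤ X0 + X1 + X2 + X3 + X4 := by
        generalize hX : X0 + X1 + X2 + X3 + X4 = X at *
        have hXn : 0 ≤ X := by rw [← hX]; linarith
        clear hX
        omega
      linarith
  · have hK := hE2 hC
    clear hE1 hE2 q0' q1' q2' q3' q4'
    subst hh
    exact ⟨1, 0, by norm_num, by norm_num, by norm_num, by linarith⟩

theorem single_arith1 {C0 C1 C2 C3 C4 X0 X1 X2 X3 X4 Y0 Y1 Y2 Y3 Y4 h K0 K1 : ℤ}
    (c0 : 0 ≤ C0 ∧ C0 ≤ 1) (c1 : 0 ≤ C1 ∧ C1 ≤ 1) (c2 : 0 ≤ C2 ∧ C2 ≤ 1)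
    (c3 : 0 ≤ C3 ∧ C3 ≤ 1) (c4 : 0 ≤ C4 ∧ C4 ≤ 1)
    (x0 : 0 ≤ X0) (x1 : 0 ≤ X1) (x2 : 0 ≤ X2) (x3 : 0 ≤ X3) (x4 : 0 ≤ X4)
    (q0 : 1 - C0 ≤ X0 + Y0 ∧ (C0 = 1 → X0 = Y0)) (q1 : 1 - C1 ≤ X1 + Y1 ∧ (C1 = 1 → X1 = Y1))
    (q2 : 1 - C2 ≤ X2 + Y2 ∧ (C2 = 1 → X2 = Y2)) (q3 : 1 - C3 ≤ X3 + Y3 ∧ (C3 = 1 → X3 = Y3))
    (q4 : 1 - C4 ≤ X4 + Y4 ∧ (C4 = 1 → X4 = Y4))
    (hκ : K0 + (X0 + X1 + X2 + X3 + X4) + 3 * 1 = 2 * K1)
    (hE1 : C0 + C1 + C2 + C3 + C4 ≤ 3 → C0 + C1 + C2 + C3 + C4 + 1 ≤ K0)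
    (hE2 : 4 ≤ C0 + C1 + C2 + C3 + C4 → 4 ≤ K0)
    (hC : h = 0 ∧ C0 + C1 + C2 + C3 + C4 ≤ 3 ∨ h = 1 ∧ 4 ≤ C0 + C1 + C2 + C3 + C4) :
    ∃ D g : ℤ, D = 1 + h - 2 * g ∧ 0 ≤ D ∧ (D = 0 → 1 = h) ∧
      4 - 2 * K0 + (C0 + C1 + C2 + C3 + C4) + h + 3 * D ≤
        (X0 + X1 + X2 + X3 + X4) + (Y0 + Y1 + Y2 + Y3 + Y4) := by
  obtain ⟨q0, q0'⟩ := q0
  obtain ⟨q1, q1'⟩ := q1
  obtain ⟨q2, q2'⟩ := q2
  obtain ⟨q3, q3'⟩ := q3
  obtain ⟨q4, q4'⟩ := q4
  obtain ⟨-, c0⟩ := c0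
  obtain ⟨-, c1⟩ := c1
  obtain ⟨-, c2⟩ := c2
  obtain ⟨-, c3⟩ := c3
  obtain ⟨-, c4⟩ := c4
  rcases hC with ⟨hh, hC⟩ | ⟨hh, hC⟩
  · have hK := hE1 hC
    clear hE1 hE2 q0' q1' q2' q3' q4'
    subst hh
    exact ⟨1, 0, by norm_num, by norm_num, by norm_num, by linarith⟩
  · have hK := hE2 hC
    clear hE1 hE2
    subst hh
    refine ⟨0, 1, by norm_num, by norm_num, by norm_num, ?_⟩
    by_cases hK1 : 5 ≤ K0
    · clear q0' q1' q2' q3' q4'
      linarith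
    · push Not at hK1
      have hK2 : K0 ≤ 4 := by linarith [Int.add_one_le_of_lt hK1]
      by_cases hC4 : C0 + C1 + C2 + C3 + C4 ≤ 4
      · clear q0' q1' q2' q3' q4'
        linarith
      · push Not at hC4
        have hC5 : 5 ≤ C0 + C1 + C2 + C3 + C4 := by linarith [Int.add_one_le_of_lt hC4]
        have z0 : C0 = 1 := by linarith
        have z1 : C1 = 1 := by linarith
        have z2 : C2 = 1 := by linarith
        have z3 : C3 = 1 := by linarith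
        have z4 : C4 = 1 := by linarith
        have w0 := q0' z0
        have w1 := q1' z1
        have w2 := q2' z2
        have w3 := q3' z3
        have w4 := q4' z4
        have hK3 : K0 = 4 := by linarith
        clear q0' q1' q2' q3' q4' q0 q1 q2 q3 q4
        have : 1 ≤ X0 + X1 + X2 + X3 + X4 := by
          generalize hX : X0 + X1 + X2 + X3 + X4 = X at *
          have hXn : 0 ≤ X := by rw [← hX]; linarith
          clear hX
          omega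
        linarith

theorem Blk.single (hk : 0 < k) (B : Blk k ξ η σ c κ) (p : ℕ) :
    ∃ D g : ℤ, D = σ p + hv (S5 k c p) - 2 * g ∧ 0 ≤ D ∧ (D = 0 → σ p = hv (S5 k c p)) ∧
      4 - 2 * κ p + S5 k c p + hv (S5 k c p) + 3 * D ≤ S5 k ξ p + S5 k η p := by
  have hE := B.ebound hk p
  have hC := hv_cases (S5 k c p)
  have hκ := B.hκ p
  have r0 := B.hc p
  have r1 := B.hc (p + k)
  have r2 := B.hc (p + 2 * k)
  have r3 := B.hc (p + 3 * k)
  have r4 := B.hc (p + 4 * k)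
  have s1 : σ (p + k) = σ p := B.σp p
  have s2 : σ (p + 2 * k) = σ p := by rw [show p + 2 * k = p + k + k by ring, B.σp, B.σp]
  have s3 : σ (p + 3 * k) = σ p := by rw [show p + 3 * k = p + 2 * k + k by ring, B.σp, s2]
  have s4 : σ (p + 4 * k) = σ p := by rw [show p + 4 * k = p + 3 * k + k by ring, B.σp, s3]
  rw [s1] at r1
  rw [s2] at r2
  rw [s3] at r3
  rw [s4] at r4
  rcases B.σ01 p with hσ | hσ
  · rw [hσ] at r0 r1 r2 r3 r4 hκ ⊢
    exact single_arith0 (bd01 (B.c01 _)) (bd01 (B.c01 _)) (bd01 (B.c01 _)) (bd01 (B.c01 _))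
      (bd01 (B.c01 _)) (bd01 (B.ξ01 _)).1 (bd01 (B.ξ01 _)).1 (bd01 (B.ξ01 _)).1
      (bd01 (B.ξ01 _)).1 (bd01 (B.ξ01 _)).1
      (strand0 (B.c01 _) (B.ξ01 _) (B.η01 _) r0) (strand0 (B.c01 _) (B.ξ01 _) (B.η01 _) r1)
      (strand0 (B.c01 _) (B.ξ01 _) (B.η01 _) r2) (strand0 (B.c01 _) (B.ξ01 _) (B.η01 _) r3)
      (strand0 (B.c01 _) (B.ξ01 _) (B.η01 _) r4) hκ hE.1 hE.2 hC
  · rw [hσ] at r0 r1 r2 r3 r4 hκ ⊢
    exact single_arith1 (bd01 (B.c01 _)) (bd01 (B.c01 _)) (bd01 (B.c01 _)) (bd01 (B.c01 _))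
      (bd01 (B.c01 _)) (bd01 (B.ξ01 _)).1 (bd01 (B.ξ01 _)).1 (bd01 (B.ξ01 _)).1
      (bd01 (B.ξ01 _)).1 (bd01 (B.ξ01 _)).1
      (strand1 (B.c01 _) (B.ξ01 _) (B.η01 _) r0) (strand1 (B.c01 _) (B.ξ01 _) (B.η01 _) r1)
      (strand1 (B.c01 _) (B.ξ01 _) (B.η01 _) r2) (strand1 (B.c01 _) (B.ξ01 _) (B.η01 _) r3)
      (strand1 (B.c01 _) (B.ξ01 _) (B.η01 _) r4) hκ hE.1 hE.2 hC

end

/-- a periodic solution of `g p = 2 g (p+1)` vanishes -/
theorem per_double (m : ℕ) (hm : 0 < m) (g : ℕ → ℤ) (h : ∀ p, g p = 2 * g (p + 1))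
    (hp : ∀ p, g (p + m) = g p) (p : ℕ) : g p = 0 := by
  have h1 := V_tele g (fun _ => 0) (fun p => by rw [← h]; ring) m p
  have h2 : V m (fun _ => (0 : ℤ)) p = 0 := by simp [V]
  rw [h2, hp] at h1
  have h3 : ((2 : ℤ) ^ m - 1) * g p = 0 := by linarith
  rcases mul_eq_zero.mp h3 with h4 | h4
  · exfalso
    have : (2 : ℤ) ^ m = 1 := by linarith
    have h5 : (2 : ℤ) ≤ 2 ^ m := by
      calc (2 : ℤ) = 2 ^ 1 := by norm_num
        _ ≤ 2 ^ m := pow_le_pow_right₀ (by norm_num) hm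
    linarith
  · exact h4

/-- the arithmetic of the four blocks: first step -/
theorem four_arith {C0 C1 C2 C3 K0 K1 K2 K3 h0 h1 h2 h3 W : ℤ}
    (b0 : 0 ≤ C0 ∧ C0 ≤ 5) (b1 : 0 ≤ C1 ∧ C1 ≤ 5) (b2 : 0 ≤ C2 ∧ C2 ≤ 5) (b3 : 0 ≤ C3 ∧ C3 ≤ 5)
    (e0 : (h0 = 0 ∧ C0 + 1 ≤ K0) ∨ (h0 = 1 ∧ 4 ≤ K0))
    (e1 : (h1 = 0 ∧ C1 + 1 ≤ K1) ∨ (h1 = 1 ∧ 4 ≤ K1))
    (e2 : (h2 = 0 ∧ C2 + 1 ≤ K2) ∨ (h2 = 1 ∧ 4 ≤ K2))
    (e3 : (h3 = 0 ∧ C3 + 1 ≤ K3) ∨ (h3 = 1 ∧ 4 ≤ K3))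
    (hK : K0 + K1 + K2 + K3 = 5 + 3 * W) (hC : C0 + C1 + C2 + C3 = 5 * W) :
    h0 + h1 + h2 + h3 = W := by
  rcases e0 with ⟨rfl, e0⟩ | ⟨rfl, e0⟩ <;> rcases e1 with ⟨rfl, e1⟩ | ⟨rfl, e1⟩ <;>
    rcases e2 with ⟨rfl, e2⟩ | ⟨rfl, e2⟩ <;> rcases e3 with ⟨rfl, e3⟩ | ⟨rfl, e3⟩ <;> omega

theorem hv_bound {C K : ℤ} (hE : (C ≤ 3 → C + 1 ≤ K) ∧ (4 ≤ C → 4 ≤ K)) :
    (hv C = 0 ∧ C + 1 ≤ K) ∨ (hv C = 1 ∧ 4 ≤ K) := by
  rcases hv_cases C with ⟨h1, h2⟩ | ⟨h1, h2⟩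
  · left; exact ⟨h1, hE.1 h2⟩
  · right; exact ⟨h1, hE.2 h2⟩

theorem S5_bd {k : ℕ} {f : ℕ → ℤ} (h : ∀ p, f p = 0 ∨ f p = 1) (p : ℕ) :
    0 ≤ S5 k f p ∧ S5 k f p ≤ 5 := by
  unfold S5
  have h0 := bd01 (h p)
  have h1 := bd01 (h (p + k))
  have h2 := bd01 (h (p + 2 * k))
  have h3 := bd01 (h (p + 3 * k))
  have h4 := bd01 (h (p + 4 * k))
  constructor <;> linarith [h0.1, h0.2, h1.1, h1.2, h2.1, h2.2, h3.1, h3.2, h4.1, h4.2]

theorem S5_sum {k : ℕ} (f : Fin 4 → ℕ → ℤ) (g : ℕ → ℤ) (h : ∀ p, ∑ i, f i p = g p) (p : ℕ) :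
    ∑ i, S5 k (f i) p = S5 k g p := by
  unfold S5
  simp only [Finset.sum_add_distrib, h]

/-- the carries of the next position: a heavy block stays heavy, a light block stays light -/
theorem Blk.next {k : ℕ} {ξ η σ c κ : ℕ → ℤ} (B : Blk k ξ η σ c κ) (p : ℕ)
    (h : σ p = hv (S5 k c p)) : hv (S5 k c (p + 1)) = hv (S5 k c p) := by
  have r0 := B.hc p
  have r1 := B.hc (p + k)
  have r2 := B.hc (p + 2 * k)
  have r3 := B.hc (p + 3 * k)
  have r4 := B.hc (p + 4 * k)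
  have s1 : σ (p + k) = σ p := B.σp p
  have s2 : σ (p + 2 * k) = σ p := by rw [show p + 2 * k = p + k + k by ring, B.σp, B.σp]
  have s3 : σ (p + 3 * k) = σ p := by rw [show p + 3 * k = p + 2 * k + k by ring, B.σp, s2]
  have s4 : σ (p + 4 * k) = σ p := by rw [show p + 4 * k = p + 3 * k + k by ring, B.σp, s3]
  rw [s1] at r1
  rw [s2] at r2
  rw [s3] at r3
  rw [s4] at r4
  have hS : S5 k c (p + 1) = c (p + 1) + c (p + k + 1) + c (p + 2 * k + 1) + c (p + 3 * k + 1) +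
      c (p + 4 * k + 1) := by
    unfold S5
    rw [show p + 1 + k = p + k + 1 by ring, show p + 1 + 2 * k = p + 2 * k + 1 by ring,
      show p + 1 + 3 * k = p + 3 * k + 1 by ring, show p + 1 + 4 * k = p + 4 * k + 1 by ring]
  have key0 : ∀ {c x y c' : ℤ}, (c = 0 ∨ c = 1) → (x = 0 ∨ x = 1) → (y = 0 ∨ y = 1) →
      (c' = 0 ∨ c' = 1) → c + x + 0 = y + 2 * c' → c' ≤ c := by
    intro c x y c' hc hx hy hc' h
    rcases hc with rfl | rfl <;> rcases hx with rfl | rfl <;> rcases hy with rfl | rfl <;>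
      rcases hc' with rfl | rfl <;> omega
  have key1 : ∀ {c x y c' : ℤ}, (c = 0 ∨ c = 1) → (x = 0 ∨ x = 1) → (y = 0 ∨ y = 1) →
      (c' = 0 ∨ c' = 1) → c + x + 1 = y + 2 * c' → c ≤ c' := by
    intro c x y c' hc hx hy hc' h
    rcases hc with rfl | rfl <;> rcases hx with rfl | rfl <;> rcases hy with rfl | rfl <;>
      rcases hc' with rfl | rfl <;> omega
  rcases hv_cases (S5 k c p) with ⟨h1, h2⟩ | ⟨h1, h2⟩
  · rw [h1] at h ⊢
    rw [h] at r0 r1 r2 r3 r4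
    have t0 := key0 (B.c01 _) (B.ξ01 _) (B.η01 _) (B.c01 _) r0
    have t1 := key0 (B.c01 _) (B.ξ01 _) (B.η01 _) (B.c01 _) r1
    have t2 := key0 (B.c01 _) (B.ξ01 _) (B.η01 _) (B.c01 _) r2
    have t3 := key0 (B.c01 _) (B.ξ01 _) (B.η01 _) (B.c01 _) r3
    have t4 := key0 (B.c01 _) (B.ξ01 _) (B.η01 _) (B.c01 _) r4
    unfold hv
    rw [if_neg]
    rw [hS]
    unfold S5 at h2
    push Not
    linarith
  · rw [h1] at h ⊢
    rw [h] at r0 r1 r2 r3 r4
    have t0 := key1 (B.c01 _) (B.ξ01 _) (B.η01 _) (B.c01 _) r0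
    have t1 := key1 (B.c01 _) (B.ξ01 _) (B.η01 _) (B.c01 _) r1
    have t2 := key1 (B.c01 _) (B.ξ01 _) (B.η01 _) (B.c01 _) r2
    have t3 := key1 (B.c01 _) (B.ξ01 _) (B.η01 _) (B.c01 _) r3
    have t4 := key1 (B.c01 _) (B.ξ01 _) (B.η01 _) (B.c01 _) r4
    unfold hv
    rw [if_pos]
    rw [hS]
    unfold S5 at h2
    linarith

/-- THE FOUR-BLOCK LEMMA -/
theorem four_block {k : ℕ} (hk : 0 < k) (ξ η σ c κ : Fin 4 → ℕ → ℤ)
    (B : ∀ i, Blk k (ξ i) (η i) (σ i) (c i) (κ i))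
    (hξ : ∀ p, ∑ i, ξ i p = 1) (hη : ∀ p, ∑ i, η i p = 1) :
    (∀ i p, ξ i p = η i p) ∧ (∀ i p, 1 ≤ κ i p) ∧ (∀ p, ∑ i, κ i p = 5) ∧
      (∀ i p, κ i p + S5 k (ξ i) p = 2 * κ i (p + 1)) := by
  set W : ℕ → ℤ := fun p => ∑ i, c i p with hWdef
  set S : ℕ → ℤ := fun p => ∑ i, σ i p with hSdef
  set U : ℕ → ℤ := fun p => ∑ i, κ i p with hUdef
  have hWrec : ∀ p, W p + S p = 2 * W (p + 1) := by
    intro p
    have h : ∑ i, (c i p + ξ i p + σ i p) = ∑ i, (η i p + 2 * c i (p + 1)) :=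
      Finset.sum_congr rfl (fun i _ => (B i).hc p)
    simp only [Finset.sum_add_distrib, ← Finset.mul_sum, hξ, hη] at h
    simp only [hWdef, hSdef]
    linarith
  have hSp : ∀ p, S (p + k) = S p := by
    intro p
    simp only [hSdef]
    exact Finset.sum_congr rfl (fun i _ => (B i).σp p)
  have hWp5 : ∀ p, W (p + 5 * k) = W p := by
    intro p
    simp only [hWdef]
    exact Finset.sum_congr rfl (fun i _ => (B i).cp p)
  have hWp : ∀ p, W (p + k) = W p := by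
    intro p
    have := per_double (5 * k) (by omega) (fun p => W (p + k) - W p) (fun p => by
      have h1 := hWrec p
      have h2 := hWrec (p + k)
      rw [hSp] at h2
      rw [show p + k + 1 = p + 1 + k by ring] at h2
      show W (p + k) - W p = 2 * (W (p + 1 + k) - W (p + 1))
      linarith) (fun p => by
      show W (p + 5 * k + k) - W (p + 5 * k) = W (p + k) - W p
      rw [show p + 5 * k + k = p + k + 5 * k by ring, hWp5, hWp5]) p
    linarith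
  have hUp : ∀ p, U (p + k) = U p := by
    intro p
    simp only [hUdef]
    exact Finset.sum_congr rfl (fun i _ => (B i).κp p)
  have hξ5 : ∀ p, ∑ i, S5 k (ξ i) p = 5 := by
    intro p
    rw [S5_sum ξ (fun _ => 1) hξ]
    unfold S5; norm_num
  have hη5 : ∀ p, ∑ i, S5 k (η i) p = 5 := by
    intro p
    rw [S5_sum η (fun _ => 1) hη]
    unfold S5; norm_num
  have hUrec : ∀ p, U p + 5 + 3 * S p = 2 * U (p + 1) := by
    intro p
    have h : ∑ i, (κ i p + S5 k (ξ i) p + 3 * σ i p) = ∑ i, (2 * κ i (p + 1)) :=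
      Finset.sum_congr rfl (fun i _ => (B i).hκ p)
    simp only [Finset.sum_add_distrib, ← Finset.mul_sum] at h
    rw [hξ5] at h
    exact h
  have hU : ∀ p, U p = 5 + 3 * W p := by
    intro p
    have := per_double k hk (fun p => U p - 5 - 3 * W p) (fun p => by
      have h1 := hWrec p
      have h2 := hUrec p
      show U p - 5 - 3 * W p = 2 * (U (p + 1) - 5 - 3 * W (p + 1))
      linarith) (fun p => by
      show U (p + k) - 5 - 3 * W (p + k) = U p - 5 - 3 * W p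
      rw [hUp, hWp]) p
    linarith
  have hC : ∀ p, ∑ i, S5 k (c i) p = 5 * W p := by
    intro p
    rw [S5_sum c W (fun p => rfl)]
    unfold S5
    rw [hWp, show p + 2 * k = p + k + k by ring, hWp, hWp, show p + 3 * k = p + k + k + k by ring,
      hWp, hWp, hWp, show p + 4 * k = p + k + k + k + k by ring, hWp, hWp, hWp, hWp]
    ring
  have hS0 : ∀ p, 0 ≤ S p := fun p => Finset.sum_nonneg (fun i _ => nn01 (B i).σ01 p)
  have hW0 : ∀ p, 0 ≤ W p := fun p => Finset.sum_nonneg (fun i _ => nn01 (B i).c01 p)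
  have hup : ∀ p, 1 ≤ W p → 1 ≤ W (p + 1) := by
    intro p hp
    have h1 := hWrec p
    have h2 := hS0 p
    omega
  have hup' : ∀ j p, 1 ≤ W p → 1 ≤ W (p + j) := by
    intro j
    induction j with
    | zero => intro p hp; exact hp
    | succ j ih => intro p hp; exact hup _ (ih p hp)
  have hWper : ∀ j p, W (p + j * k) = W p := by
    intro j
    induction j with
    | zero => intro p; simp
    | succ j ih => intro p; rw [show p + (j + 1) * k = p + j * k + k by ring, hWp, ih]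
  by_cases hcase : ∃ q, 1 ≤ W q
  · -- impossible
    exfalso
    obtain ⟨q, hq⟩ := hcase
    have hall : ∀ p, 1 ≤ W p := by
      intro p
      rw [← hWper q p]
      have hge : q ≤ p + q * k := by nlinarith
      obtain ⟨d, hd⟩ := Nat.exists_eq_add_of_le hge
      rw [hd]
      exact hup' d q hq
    have hH : ∀ p, ∑ i, hv (S5 k (c i) p) = W p := by
      intro p
      have hK := hU p
      have hCp := hC p
      simp only [hUdef] at hK
      rw [Fin.sum_univ_four] at hK hCp ⊢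
      exact four_arith (S5_bd (B 0).c01 p) (S5_bd (B 1).c01 p) (S5_bd (B 2).c01 p)
        (S5_bd (B 3).c01 p) (hv_bound ((B 0).ebound hk p)) (hv_bound ((B 1).ebound hk p))
        (hv_bound ((B 2).ebound hk p)) (hv_bound ((B 3).ebound hk p)) hK hCp
    have hsh : ∀ p i, σ i p = hv (S5 k (c i) p) := by
      intro p
      choose D g hD1 hD2 hD3 hD4 using fun i => (B i).single hk p
      have h1 : ∑ i, (4 - 2 * κ i p + S5 k (c i) p + hv (S5 k (c i) p) + 3 * D i) ≤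
          ∑ i, (S5 k (ξ i) p + S5 k (η i) p) := Finset.sum_le_sum (fun i _ => hD4 i)
      have h2 : ∑ i, D i = ∑ i, (σ i p + hv (S5 k (c i) p) - 2 * g i) :=
        Finset.sum_congr rfl (fun i _ => hD1 i)
      simp only [Finset.sum_add_distrib, Finset.sum_sub_distrib, ← Finset.mul_sum] at h1 h2
      rw [hξ5, hη5, hC, hH] at h1
      rw [hH] at h2
      have h3 := hU p
      simp only [hUdef] at h3
      rw [h3] at h1
      have h4 : (∑ i : Fin 4, (4 : ℤ)) = 16 := by simp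
      rw [h4] at h1
      have h5 := hWrec p
      simp only [hSdef] at h5
      have h6 : ∑ i, D i = 2 * (W (p + 1) - ∑ i, g i) := by rw [h2]; linarith
      have h7 : ∑ i, D i ≤ 1 := by linarith
      have h8 : 0 ≤ ∑ i, D i := Finset.sum_nonneg (fun i _ => hD2 i)
      have h9 : ∑ i, D i = 0 := by omega
      have h10 := (Finset.sum_eq_zero_iff_of_nonneg (fun i _ => hD2 i)).mp h9
      intro i
      exact hD3 i (h10 i (Finset.mem_univ _))
    have hconst : ∀ i p, hv (S5 k (c i) p) = hv (S5 k (c i) 0) := by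
      intro i p
      induction p with
      | zero => rfl
      | succ p ih => rw [(B i).next p (hsh p i), ih]
    have hex : ∃ i, hv (S5 k (c i) 0) = 1 := by
      by_contra hno
      push Not at hno
      have : ∑ i, hv (S5 k (c i) 0) = 0 := by
        apply Finset.sum_eq_zero
        intro i _
        rcases hv_cases (S5 k (c i) 0) with h | h
        · exact h.1
        · exact absurd h.1 (hno i)
      rw [hH] at this
      have := hall 0
      omega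
    obtain ⟨i, hi⟩ := hex
    obtain ⟨q, hq⟩ := (B i).σne
    have := hsh q i
    rw [hconst, hi, hq] at this
    norm_num at this
  · push Not at hcase
    have hWz : ∀ p, W p = 0 := fun p => by have := hcase p; have := hW0 p; omega
    have hSz : ∀ p, S p = 0 := fun p => by
      have := hWrec p; rw [hWz, hWz] at this; linarith
    have hc0 : ∀ i p, c i p = 0 := by
      intro i p
      have := (Finset.sum_eq_zero_iff_of_nonneg (fun i _ => nn01 (B i).c01 p)).mp (hWz p)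
      exact this i (Finset.mem_univ _)
    have hσ0 : ∀ i p, σ i p = 0 := by
      intro i p
      have := (Finset.sum_eq_zero_iff_of_nonneg (fun i _ => nn01 (B i).σ01 p)).mp (hSz p)
      exact this i (Finset.mem_univ _)
    refine ⟨?_, ?_, ?_, ?_⟩
    · intro i p
      have := (B i).hc p
      rw [hc0, hc0, hσ0] at this
      linarith
    · intro i p
      have h1 := ((B i).ebound hk p).1
      have h2 : S5 k (c i) p = 0 := by unfold S5; simp only [hc0]; norm_num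
      rw [h2] at h1
      have := h1 (by norm_num)
      linarith
    · intro p
      have := hU p
      rw [hWz] at this
      simp only [hUdef] at this
      linarith
    · intro i p
      have := (B i).hκ p
      rw [hσ0] at this
      unfold S5
      linarith

end Dob
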