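import Mathlib
import Pool.Agent.Dob.Block

/-!
From a zero-sum set of digits to the carry data.
-/

open Finset

namespace Dob

theorem V_split (m m' : ℕ) (f : ℕ → ℤ) (p : ℕ) :
    V (m + m') f p = V m f p + 2 ^ m * V m' f (p + m) := by
  unfold V
  rw [Finset.sum_range_add, Finset.mul_sum]
  congr 1
  apply Finset.sum_congr rfl
  intro t _
  rw [pow_add, show p + (m + t) = p + m + t by ring]
  ring

theorem V_succ_shift (m : ℕ) (f : ℕ → ℤ) (p : ℕ) :
    V m f p + 2 ^ m * f (p + m) = f p + 2 * V m f (p + 1) := by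
  have h1 : V (m + 1) f p = V m f p + 2 ^ m * f (p + m) := by
    unfold V; rw [Finset.sum_range_succ]
  have h2 : V (1 + m) f p = V 1 f p + 2 ^ 1 * V m f (p + 1) := V_split 1 m f p
  have h3 : V 1 f p = f p := by simp [V]
  rw [Nat.add_comm 1 m, h1, h3] at h2
  linarith

theorem V5 (k : ℕ) (f : ℕ → ℤ) (p : ℕ) :
    V (5 * k) f p = V k f p + 2 ^ k * V k f (p + k) + (2 ^ k) ^ 2 * V k f (p + 2 * k) +
      (2 ^ k) ^ 3 * V k f (p + 3 * k) + (2 ^ k) ^ 4 * V k f (p + 4 * k) := by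
  have h : 5 * k = k + (k + (k + (k + k))) := by ring
  rw [h, V_split, V_split, V_split, V_split]
  rw [show p + k + k = p + 2 * k by ring, show p + 2 * k + k = p + 3 * k by ring,
    show p + 3 * k + k = p + 4 * k by ring]
  ring

theorem V_S5 (k : ℕ) (f : ℕ → ℤ) (p : ℕ) :
    V k (S5 k f) p = V k f p + V k f (p + k) + V k f (p + 2 * k) +
      V k f (p + 3 * k) + V k f (p + 4 * k) := by
  have h2 : V k (fun q => f q + f (q + k) + f (q + 2 * k) + f (q + 3 * k) +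
      f (q + 4 * k)) p = V k f p + V k f (p + k) + V k f (p + 2 * k) +
      V k f (p + 3 * k) + V k f (p + 4 * k) := by
    rw [← V_shift k f p k, ← V_shift k f p (2 * k), ← V_shift k f p (3 * k),
      ← V_shift k f p (4 * k), ← V_add, ← V_add, ← V_add, ← V_add]
  exact h2

/-- the value of a full window modulo `2^k - 1` -/
theorem V5_mod (k : ℕ) (f : ℕ → ℤ) (p : ℕ) :
    ((2 : ℤ) ^ k - 1) ∣ V (5 * k) f p - V k (S5 k f) p := by
  rw [V5, V_S5]
  refine ⟨V k f (p + k) + (2 ^ k + 1) * V k f (p + 2 * k) +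
    ((2 ^ k) ^ 2 + 2 ^ k + 1) * V k f (p + 3 * k) +
    ((2 ^ k) ^ 3 + (2 ^ k) ^ 2 + 2 ^ k + 1) * V k f (p + 4 * k), by ring⟩

/-- cyclic division by two -/
theorem cyc_div (m : ℕ) (hm : 0 < m) (f : ℕ → ℤ) (hp : ∀ p, f (p + m) = f p)
    (hd : ((2 : ℤ) ^ m - 1) ∣ V m f 0) :
    ∃ c : ℕ → ℤ, (∀ p, ((2 : ℤ) ^ m - 1) * c p = V m f p) ∧ (∀ p, c p + f p = 2 * c (p + 1)) ∧
      (∀ p, c (p + m) = c p) := by
  have hrec : ∀ p, V m f p + (2 ^ m - 1) * f p = 2 * V m f (p + 1) := by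
    intro p
    have := V_succ_shift m f p
    rw [hp] at this
    linarith
  have h2m : (2 : ℤ) ≤ 2 ^ m := by
    calc (2 : ℤ) = 2 ^ 1 := by norm_num
      _ ≤ 2 ^ m := pow_le_pow_right₀ (by norm_num) hm
  have hcop : IsCoprime ((2 : ℤ) ^ m - 1) 2 := by
    refine ⟨-1, 2 ^ (m - 1), ?_⟩
    have : (2 : ℤ) ^ (m - 1) * 2 = 2 ^ m := by
      rw [← pow_succ, Nat.sub_add_cancel hm]
    rw [this]; ring
  have hdiv : ∀ p, ((2 : ℤ) ^ m - 1) ∣ V m f p := by
    intro p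
    induction p with
    | zero => exact hd
    | succ p ih =>
      have h1 : ((2 : ℤ) ^ m - 1) ∣ 2 * V m f (p + 1) := by
        rw [← hrec]
        exact dvd_add ih (Dvd.intro _ rfl)
      exact hcop.dvd_of_dvd_mul_left h1
  choose c hc using hdiv
  have hne : ((2 : ℤ) ^ m - 1) ≠ 0 := by linarith
  refine ⟨c, fun p => (hc p).symm, ?_, ?_⟩
  · intro p
    have h1 := hrec p
    rw [hc p, hc (p + 1)] at h1
    have h2 : ((2 : ℤ) ^ m - 1) * (c p + f p) = ((2 : ℤ) ^ m - 1) * (2 * c (p + 1)) := by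
      linarith
    exact mul_left_cancel₀ hne h2
  · intro p
    have h1 : V m f (p + m) = V m f p := by
      rw [← V_shift]
      congr 1
      funext q
      exact hp q
    have h2 : ((2 : ℤ) ^ m - 1) * c (p + m) = ((2 : ℤ) ^ m - 1) * c p := by
      rw [← hc, ← hc, h1]
    exact mul_left_cancel₀ hne h2

/-- the binary digits of `s`, repeated with period `k` -/
def dig (k s : ℕ) (p : ℕ) : ℤ := ((s / 2 ^ (p % k) % 2 : ℕ) : ℤ)

theorem dig_sum (s m : ℕ) : ∑ t ∈ range m, (2 : ℤ) ^ t * ((s / 2 ^ t % 2 : ℕ) : ℤ) =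
    ((s % 2 ^ m : ℕ) : ℤ) := by
  induction m with
  | zero => simp [Nat.mod_one]
  | succ m ih =>
    rw [Finset.sum_range_succ, ih, Nat.mod_pow_succ]
    push_cast
    ring

theorem dig_V (k s : ℕ) (hs : s < 2 ^ k) : V k (dig k s) 0 = s := by
  unfold V dig
  have h : ∀ t ∈ range k, (2 : ℤ) ^ t * ((s / 2 ^ ((0 + t) % k) % 2 : ℕ) : ℤ) =
      (2 : ℤ) ^ t * ((s / 2 ^ t % 2 : ℕ) : ℤ) := by
    intro t ht
    rw [Nat.zero_add, Nat.mod_eq_of_lt (Finset.mem_range.mp ht)]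
  rw [Finset.sum_congr rfl h, dig_sum, Nat.mod_eq_of_lt hs]

theorem dig_per (k s p : ℕ) : dig k s (p + k) = dig k s p := by
  unfold dig; rw [Nat.add_mod_right]

theorem dig01 (k s p : ℕ) : dig k s p = 0 ∨ dig k s p = 1 := by
  unfold dig
  rcases Nat.mod_two_eq_zero_or_one (s / 2 ^ (p % k)) with h | h <;> rw [h] <;> simp

theorem V_le (m : ℕ) (f : ℕ → ℤ) (p : ℕ) (a : ℤ) (h : ∀ p, f p ≤ a) :
    V m f p ≤ a * (2 ^ m - 1) := by
  have h1 := V_nonneg m (fun q => a * 1 - f q) p (fun q => by have := h q; linarith)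
  rw [V_sub m (fun _ => a * 1) f p, V_smul m a (fun _ => 1) p, V_one] at h1
  linarith

theorem V_ge (m : ℕ) (f : ℕ → ℤ) (p : ℕ) (a : ℤ) (h : ∀ p, a ≤ f p) :
    a * (2 ^ m - 1) ≤ V m f p := by
  have h1 := V_nonneg m (fun q => f q - a * 1) p (fun q => by have := h q; linarith)
  rw [V_sub m f (fun _ => a * 1) p, V_smul m a (fun _ => 1) p, V_one] at h1
  linarith

/-- extremal value on a full period: the sequence is constant -/
theorem V_max (m : ℕ) (hm : 0 < m) (f : ℕ → ℤ) (hp : ∀ p, f (p + m) = f p) (p : ℕ) (a : ℤ)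
    (h : ∀ p, f p ≤ a) (he : V m f p = a * (2 ^ m - 1)) : ∀ q, f q = a := by
  have h1 : V m (fun q => a * 1 - f q) p = 0 := by
    rw [V_sub m (fun _ => a * 1) f p, V_smul m a (fun _ => 1) p, V_one, he]; ring
  have h2 := V_eq_zero m _ p (fun q => by have := h q; linarith) h1
  have h3 := per_zero m hm (fun q => a * 1 - f q) (fun q => by simp only [hp]) p h2
  intro q
  have := h3 q
  linarith

theorem V_min (m : ℕ) (hm : 0 < m) (f : ℕ → ℤ) (hp : ∀ p, f (p + m) = f p) (p : ℕ) (a : ℤ)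
    (h : ∀ p, a ≤ f p) (he : V m f p = a * (2 ^ m - 1)) : ∀ q, f q = a := by
  have h1 : V m (fun q => f q - a * 1) p = 0 := by
    rw [V_sub m f (fun _ => a * 1) p, V_smul m a (fun _ => 1) p, V_one, he]; ring
  have h2 := V_eq_zero m _ p (fun q => by have := h q; linarith) h1
  have h3 := per_zero m hm (fun q => f q - a * 1) (fun q => by simp only [hp]) p h2
  intro q
  have := h3 q
  linarith

/-- `1 + Q + Q^2 + Q^3 + Q^4` -/
def nu (k : ℕ) : ℕ := 1 + 2 ^ k + (2 ^ k) ^ 2 + (2 ^ k) ^ 3 + (2 ^ k) ^ 4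

theorem nu_mul (k : ℕ) : ((2 : ℤ) ^ k - 1) * (nu k : ℤ) = 2 ^ (5 * k) - 1 := by
  unfold nu
  push_cast
  rw [show 5 * k = k * 5 by ring, pow_mul]
  ring

/-- The carry data of a zero-sum set of digits. -/
theorem mkBlk (k : ℕ) (hk : 0 < k) (ξ η : ℕ → ℤ) (hξ : ∀ p, ξ p = 0 ∨ ξ p = 1)
    (hη : ∀ p, η p = 0 ∨ η p = 1) (hξp : ∀ p, ξ (p + 5 * k) = ξ p)
    (hηp : ∀ p, η (p + 5 * k) = η p)
    (hne : ∃ p, ξ p = 1 ∨ η p = 1)
    (hz : ((2 : ℤ) ^ (5 * k) - 1) ∣
      V (5 * k) ξ 0 + ((nu k : ℤ) * 2 ^ (5 * k - 1) - 1) * V (5 * k) η 0) :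
    (∃ σ c κ : ℕ → ℤ, Blk k ξ η σ c κ) ∨ (∀ p, ξ p = 0 ∧ η p = 1) := by
  set a : ℤ := V (5 * k) ξ 0 with ha
  set b : ℤ := V (5 * k) η 0 with hb
  set Q1 : ℤ := (2 : ℤ) ^ k - 1 with hQ1
  have hQk : (2 : ℤ) ≤ 2 ^ k := by
    calc (2 : ℤ) = 2 ^ 1 := by norm_num
      _ ≤ 2 ^ k := pow_le_pow_right₀ (by norm_num) hk
  have hQpos : 0 < Q1 := by rw [hQ1]; linarith
  have hnu := nu_mul k
  rw [← hQ1] at hnu
  -- the residue s
  set sI : ℤ := (2 ^ (5 * k - 1) * b) % Q1 with hsI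
  have hs0 : 0 ≤ sI := Int.emod_nonneg _ hQpos.ne'
  have hs1 : sI < Q1 := Int.emod_lt_of_pos _ hQpos
  obtain ⟨s, hs⟩ := Int.eq_ofNat_of_zero_le hs0
  have hsd : Q1 ∣ 2 ^ (5 * k - 1) * b - (s : ℤ) := by
    rw [← hs, hsI]
    exact Int.dvd_self_sub_emod
  have hsk : s < 2 ^ k := by
    have : (s : ℤ) < 2 ^ k := by rw [← hs]; rw [hQ1] at hs1; linarith
    exact_mod_cast this
  have hσV := dig_V k s hsk
  have hσ5 : V (5 * k) (dig k s) 0 = (nu k : ℤ) * s := by
    have hper : ∀ q, V k (dig k s) (q + k) = V k (dig k s) q := by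
      intro q
      rw [← V_shift]
      congr 1
      funext q
      exact dig_per k s q
    rw [V5]
    have h1 : V k (dig k s) (0 + k) = s := by rw [hper, hσV]
    have h2 : V k (dig k s) (0 + 2 * k) = s := by
      rw [show 0 + 2 * k = 0 + k + k by ring, hper, h1]
    have h3 : V k (dig k s) (0 + 3 * k) = s := by
      rw [show 0 + 3 * k = 0 + 2 * k + k by ring, hper, h2]
    have h4 : V k (dig k s) (0 + 4 * k) = s := by
      rw [show 0 + 4 * k = 0 + 3 * k + k by ring, hper, h3]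
    rw [h1, h2, h3, h4, hσV]
    unfold nu
    push_cast
    ring
  -- first divisibility
  have hd1 : ((2 : ℤ) ^ (5 * k) - 1) ∣ V (5 * k) (fun q => ξ q + dig k s q - η q) 0 := by
    rw [V_sub (5 * k) (fun q => ξ q + dig k s q) η 0, V_add (5 * k) ξ (dig k s) 0, hσ5, ← ha, ← hb]
    obtain ⟨u, hu⟩ := hz
    obtain ⟨v, hv⟩ := hsd
    refine ⟨u - v, ?_⟩
    have e1 : a + (nu k : ℤ) * s - b = (a + ((nu k : ℤ) * 2 ^ (5 * k - 1) - 1) * b) -
      (nu k : ℤ) * (2 ^ (5 * k - 1) * b - s) := by ring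
    rw [e1, hu, hv, ← hnu]
    ring
  -- second divisibility
  have hd2 : Q1 ∣ V k (fun q => S5 k ξ q + 3 * dig k s q) 0 := by
    rw [V_add k (S5 k ξ) (fun q => 3 * dig k s q) 0, V_smul k 3 (dig k s) 0, hσV]
    have m1 : Q1 ∣ a - V k (S5 k ξ) 0 := V5_mod k ξ 0
    have m2 : Q1 ∣ a + (nu k : ℤ) * s - b := by
      have h1 : Q1 ∣ ((2 : ℤ) ^ (5 * k) - 1) := ⟨_, hnu.symm⟩
      have h2 := h1.trans hd1
      rwa [V_sub (5 * k) (fun q => ξ q + dig k s q) η 0, V_add (5 * k) ξ (dig k s) 0, hσ5,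
        ← ha, ← hb] at h2
    have m3 : Q1 ∣ (nu k : ℤ) - 5 := by
      unfold nu
      refine ⟨(2 ^ k) ^ 3 + 2 * (2 ^ k) ^ 2 + 3 * 2 ^ k + 4, ?_⟩
      rw [hQ1]; push_cast; ring
    have m4 : Q1 ∣ b - 2 * s := by
      have h1 : Q1 ∣ 2 * (2 ^ (5 * k - 1) * b - (s : ℤ)) := hsd.mul_left 2
      have h2 : Q1 ∣ ((2 : ℤ) ^ (5 * k) - 1) * b := (Dvd.intro _ hnu).mul_right b
      have h3 : (2 : ℤ) * 2 ^ (5 * k - 1) = 2 ^ (5 * k) := by
        rw [← pow_succ', Nat.sub_add_cancel (by omega)]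
      have h4 : b - 2 * (s : ℤ) = 2 * (2 ^ (5 * k - 1) * b - (s : ℤ)) -
          ((2 : ℤ) ^ (5 * k) - 1) * b := by
        rw [← h3]; ring
      rw [h4]
      exact dvd_sub h1 h2
    have e : V k (S5 k ξ) 0 + 3 * (s : ℤ) = (a + (nu k : ℤ) * s - b) -
        (a - V k (S5 k ξ) 0) - ((nu k : ℤ) - 5) * s + (b - 2 * s) := by ring
    rw [e]
    exact dvd_add (dvd_sub (dvd_sub m2 m1) (m3.mul_right _)) m4
  have hdigp5 : ∀ p, dig k s (p + 5 * k) = dig k s p := by
    intro p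
    rw [show p + 5 * k = p + k + k + k + k + k by ring, dig_per, dig_per, dig_per, dig_per, dig_per]
  obtain ⟨c, hc1, hc2, hc3⟩ := cyc_div (5 * k) (by omega) (fun q => ξ q + dig k s q - η q)
    (fun p => by simp only [hξp, hηp, hdigp5]) hd1
  obtain ⟨κ, hκ1, hκ2, hκ3⟩ := cyc_div k hk (fun q => S5 k ξ q + 3 * dig k s q)
    (fun p => by simp only [S5_per k ξ hξp, dig_per]) hd2
  -- some digit of s vanishes
  have hσne : ∃ p, dig k s p = 0 := by
    by_contra hno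
    push Not at hno
    have h1 : ∀ p, dig k s p = 1 := fun p => (dig01 k s p).resolve_left (hno p)
    have h2 : V k (dig k s) 0 = 2 ^ k - 1 := by
      have : dig k s = fun _ => 1 := funext h1
      rw [this, V_one]
    rw [hσV] at h2
    rw [hs] at hs1
    rw [hQ1] at hs1
    have : ((s : ℕ) : ℤ) < 2 ^ k - 1 := hs1
    linarith
  have h2m : (2 : ℤ) ≤ 2 ^ (5 * k) := by
    calc (2 : ℤ) = 2 ^ 1 := by norm_num
      _ ≤ 2 ^ (5 * k) := pow_le_pow_right₀ (by norm_num) (by omega)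
  have hfp : ∀ p, (fun q => ξ q + dig k s q - η q) (p + 5 * k) =
      (fun q => ξ q + dig k s q - η q) p := fun p => by simp only [hξp, hηp, hdigp5]
  by_cases hc01 : ∀ p, c p = 0 ∨ c p = 1
  · left
    refine ⟨dig k s, c, κ, ?_⟩
    exact { ξ01 := hξ, η01 := hη, σ01 := dig01 k s, c01 := hc01, ξp := hξp, ηp := hηp,
            σp := dig_per k s, cp := hc3, κp := hκ3
            hc := fun p => by have := hc2 p; linarith
            hκ := fun p => by have := hκ2 p; simp only [S5] at this; linarith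
            σne := hσne, ne := hne }
  · right
    push Not at hc01
    obtain ⟨p, hp0, hp1⟩ := hc01
    have hub : ∀ q, (fun q => ξ q + dig k s q - η q) q ≤ 2 := by
      intro q
      have h1 := bd01 (hξ q)
      have h2 := bd01 (dig01 k s q)
      have h3 := bd01 (hη q)
      simp only
      linarith [h1.2, h2.2, h3.1]
    have hlb : ∀ q, -1 ≤ (fun q => ξ q + dig k s q - η q) q := by
      intro q
      have h1 := bd01 (hξ q)
      have h2 := bd01 (dig01 k s q)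
      have h3 := bd01 (hη q)
      simp only
      linarith [h1.1, h2.1, h3.2]
    have hV1 := V_le (5 * k) _ p 2 hub
    have hV2 := V_ge (5 * k) _ p (-1) hlb
    rw [← hc1] at hV1 hV2
    have hcle : c p ≤ 2 := by
      by_contra hcon
      push Not at hcon
      nlinarith
    have hcge : -1 ≤ c p := by
      by_contra hcon
      push Not at hcon
      nlinarith
    have hcc : c p = 2 ∨ c p = -1 := by omega
    rcases hcc with hcc | hcc
    · exfalso
      have h1 := V_max (5 * k) (by omega) _ hfp p 2 hub (by rw [← hc1, hcc]; ring)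
      obtain ⟨q, hq⟩ := hσne
      have h2 := h1 q
      simp only [hq] at h2
      have h3 := bd01 (hξ q)
      have h4 := bd01 (hη q)
      linarith [h3.2, h4.1]
    · have h1 := V_min (5 * k) (by omega) _ hfp p (-1) hlb (by rw [← hc1, hcc]; ring)
      intro q
      have h2 := h1 q
      have h3 := hξ q
      have h4 := hη q
      have h5 := dig01 k s q
      constructor <;> omega

end Dob
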