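import Mathlib

/-!
Lifting a count in a finite field of characteristic two to a domain of characteristic zero
(the Witt vectors): the number of solutions modulo four.
-/

open Finset

namespace Dob

/-- A lift of the field `K` to the ring `R`: a multiplicative section of a ring map with kernel
generated by `2`. -/
structure Lift (K R : Type*) [Field K] [CommRing R] where
  τ : K →* R
  π : R →+* K
  πτ : ∀ x, π (τ x) = x
  τ0 : τ 0 = 0
  ker : ∀ r, π r = 0 → ∃ r', r = 2 * r'
  reg : ∀ r : R, 2 * r = 0 → r = 0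

section

variable {K R : Type*} [Field K] [Fintype K] [DecidableEq K] [CommRing R]

/-- The Witt vectors are a lift. -/
noncomputable def wittLift (K : Type*) [Field K] [Fintype K] [CharP K 2] :
    Lift K (WittVector 2 K) where
  τ := WittVector.teichmuller 2
  π := WittVector.constantCoeff
  πτ := fun x => by
    have := WittVector.teichmuller_coeff_zero 2 x
    exact this
  τ0 := WittVector.teichmuller_zero 2
  ker := fun r hr => by
    have h : r ∈ RingHom.ker (WittVector.constantCoeff : WittVector 2 K →+* K) := hr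
    rw [WittVector.ker_constantCoeff] at h
    obtain ⟨a, ha⟩ := Ideal.mem_span_singleton'.mp h
    exact ⟨a, by rw [← ha]; push_cast; ring⟩
  reg := fun r hr => by
    apply WittVector.eq_zero_of_p_mul_eq_zero r
    rw [mul_comm]
    exact_mod_cast hr

variable (L : Lift K R)

theorem Lift.sigma [IsDomain R] (e : ℕ) :
    ∑ x : K, L.τ x ^ e =
      if e = 0 then (Fintype.card K : R)
      else if (Fintype.card K - 1) ∣ e then (Fintype.card K : R) - 1 else 0 := by
  classical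
  by_cases he : e = 0
  · subst he; simp
  rw [if_neg he]
  have h0 : ∑ x : K, L.τ x ^ e = ∑ u : Kˣ, L.τ (u : K) ^ e := by
    rw [← Finset.sum_erase (s := univ) (a := (0 : K))]
    · symm
      apply Finset.sum_bij (fun (u : Kˣ) _ => (u : K))
      · intro u _; simp
      · intro a _ b _ h; exact Units.ext h
      · intro b hb
        have hb' : b ≠ 0 := by simpa using hb
        exact ⟨Units.mk0 b hb', Finset.mem_univ _, rfl⟩
      · intro u _; rfl
    · rw [L.τ0, zero_pow he]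
  rw [h0]
  let f : Kˣ →* R := (powMonoidHom e).comp (L.τ.comp (Units.coeHom K))
  have hf : ∀ u : Kˣ, L.τ (u : K) ^ e = f u := fun u => rfl
  simp_rw [hf]
  rw [sum_hom_units]
  have hcard : Fintype.card Kˣ = Fintype.card K - 1 := Fintype.card_units K
  have hiff : f = 1 ↔ (Fintype.card K - 1) ∣ e := by
    constructor
    · intro h
      obtain ⟨g, hg⟩ := IsCyclic.exists_generator (α := Kˣ)
      have h1 : f g = 1 := by rw [h]; rfl
      have h2 : L.π (f g) = 1 := by rw [h1, map_one]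
      have h3 : (g : K) ^ e = 1 := by
        rw [← hf, ← map_pow, L.πτ] at h2
        exact h2
      have h4 : g ^ e = 1 := Units.ext (by simpa using h3)
      have h5 := orderOf_dvd_of_pow_eq_one h4
      rw [orderOf_eq_card_of_forall_mem_zpowers hg, Nat.card_eq_fintype_card, hcard] at h5
      exact h5
    · intro h
      ext u
      obtain ⟨m, hm⟩ := h
      have h1 : u ^ e = 1 := by
        rw [hm, pow_mul, ← hcard, pow_card_eq_one, one_pow]
      have h2 : (u : K) ^ e = 1 := by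
        have := congrArg (fun v : Kˣ => (v : K)) h1
        simpa using this
      rw [← hf, ← map_pow, h2, map_one]
      rfl
  by_cases h : (Fintype.card K - 1) ∣ e
  · rw [if_pos (hiff.mpr h), if_pos h, hcard]
    have : 1 ≤ Fintype.card K := Fintype.card_pos
    push_cast [Nat.cast_sub this]
    ring
  · rw [if_neg (fun h' => h (hiff.mp h')), if_neg h, Nat.cast_zero]

end

section

variable {K R : Type*} [Field K] [Fintype K] [DecidableEq K] [CommRing R] (L : Lift K R)
variable {I : Type} [Fintype I] [DecidableEq I] (e : I → ℕ)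

/-- The weight of the fibre of `φ` over the colour `j`. -/
def wt (φ : I → Fin 4) (j : Fin 4) : ℕ := ∑ i, if φ i = j then e i else 0

/-- The colours allowed at `i`: the colour `3` means that `i` is outside `M`. -/
def col (M : Finset I) (i : I) : Finset (Fin 4) := if i ∈ M then {0, 1, 2} else {3}

/-- The colour classes `0, 1, 2` are nonempty zero-sum sets. -/
def Valid (m : ℕ) (φ : I → Fin 4) : Prop := ∀ j : Fin 4, j ≠ 3 → 0 < wt e φ j ∧ m ∣ wt e φ j

instance (m : ℕ) (φ : I → Fin 4) : Decidable (Valid e m φ) := by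
  unfold Valid; infer_instance

/-- The number of ordered partitions of `M` into three nonempty zero-sum sets. -/
def NM (m : ℕ) (M : Finset I) : ℕ :=
  ((Fintype.piFinset (col M)).filter (fun φ => Valid e m φ)).card

/-- The character sum attached to `M`. -/
def Om (M : Finset I) : R :=
  ∑ x : K, ∑ y : K, ∑ z : K, ∏ i ∈ M, (L.τ x ^ e i + L.τ y ^ e i + L.τ z ^ e i)

/-- The power sum. -/
def sg (w : ℕ) : R := ∑ x : K, L.τ x ^ w

theorem prod_expand (M : Finset I) (a b c : R) :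
    ∏ i ∈ M, (a ^ e i + b ^ e i + c ^ e i) =
      ∑ φ ∈ Fintype.piFinset (col M), a ^ wt e φ 0 * b ^ wt e φ 1 * c ^ wt e φ 2 := by
  let f : I → Fin 4 → R := fun i j => ![a ^ e i, b ^ e i, c ^ e i, 1] j
  have h1 : ∏ i ∈ M, (a ^ e i + b ^ e i + c ^ e i) = ∏ i : I, ∑ j ∈ col M i, f i j := by
    rw [← Finset.prod_subset (Finset.subset_univ M)]
    · apply Finset.prod_congr rfl
      intro i hi
      have : col M i = {0, 1, 2} := by simp [col, hi]
      rw [this]
      rw [Finset.sum_insert (by decide), Finset.sum_insert (by decide), Finset.sum_singleton]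
      simp only [f]
      simp [Matrix.cons_val_zero, add_assoc]
    · intro i _ hi
      have : col M i = {3} := by simp [col, hi]
      rw [this, Finset.sum_singleton]
      simp [f]
  rw [h1, Finset.prod_univ_sum]
  apply Finset.sum_congr rfl
  intro φ _
  have h2 : ∀ i, f i (φ i) = a ^ (if φ i = 0 then e i else 0) * b ^ (if φ i = 1 then e i else 0) *
      c ^ (if φ i = 2 then e i else 0) := by
    intro i
    simp only [f]
    generalize φ i = j
    fin_cases j <;> simp
  simp_rw [h2]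
  rw [Finset.prod_mul_distrib, Finset.prod_mul_distrib, Finset.prod_pow_eq_pow_sum,
    Finset.prod_pow_eq_pow_sum, Finset.prod_pow_eq_pow_sum]
  rfl

theorem Om_eq (M : Finset I) :
    Om L e M = ∑ φ ∈ Fintype.piFinset (col M),
      sg L (wt e φ 0) * sg L (wt e φ 1) * sg L (wt e φ 2) := by
  unfold Om
  simp_rw [prod_expand]
  have h : ∀ φ : I → Fin 4, sg L (wt e φ 0) * sg L (wt e φ 1) * sg L (wt e φ 2) =
      ∑ x : K, ∑ y : K, ∑ z : K,
        L.τ x ^ wt e φ 0 * L.τ y ^ wt e φ 1 * L.τ z ^ wt e φ 2 := by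
    intro φ
    simp only [sg]
    rw [Finset.sum_mul_sum, Finset.sum_mul]
    apply Finset.sum_congr rfl
    intro x _
    rw [Finset.sum_mul]
    apply Finset.sum_congr rfl
    intro y _
    rw [Finset.mul_sum]
  simp_rw [h]
  have hz : ∀ x y : K, ∑ z : K, ∑ φ ∈ Fintype.piFinset (col M),
      L.τ x ^ wt e φ 0 * L.τ y ^ wt e φ 1 * L.τ z ^ wt e φ 2 =
      ∑ φ ∈ Fintype.piFinset (col M), ∑ z : K,
      L.τ x ^ wt e φ 0 * L.τ y ^ wt e φ 1 * L.τ z ^ wt e φ 2 := fun x y => Finset.sum_comm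
  simp_rw [hz]
  have hy : ∀ x : K, ∑ y : K, ∑ φ ∈ Fintype.piFinset (col M), ∑ z : K,
      L.τ x ^ wt e φ 0 * L.τ y ^ wt e φ 1 * L.τ z ^ wt e φ 2 =
      ∑ φ ∈ Fintype.piFinset (col M), ∑ y : K, ∑ z : K,
      L.τ x ^ wt e φ 0 * L.τ y ^ wt e φ 1 * L.τ z ^ wt e φ 2 := fun x => Finset.sum_comm
  simp_rw [hy]
  rw [Finset.sum_comm]

theorem sg_prod_mod [IsDomain R] (hq : 4 ∣ Fintype.card K) (φ : I → Fin 4) :
    ∃ r : R, sg L (wt e φ 0) * sg L (wt e φ 1) * sg L (wt e φ 2) =
      -(if Valid e (Fintype.card K - 1) φ then 1 else 0) + 4 * r := by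
  obtain ⟨c, hc⟩ := hq
  have hcR : (Fintype.card K : R) = 4 * (c : R) := by rw [hc]; push_cast; ring
  by_cases hv : Valid e (Fintype.card K - 1) φ
  · rw [if_pos hv]
    have h : ∀ j : Fin 4, j ≠ 3 → sg L (wt e φ j) = (Fintype.card K : R) - 1 := by
      intro j hj
      unfold sg
      rw [L.sigma, if_neg (hv j hj).1.ne', if_pos (hv j hj).2]
    rw [h 0 (by decide), h 1 (by decide), h 2 (by decide), hcR]
    exact ⟨(16 * c ^ 3 - 12 * c ^ 2 + 3 * c : R), by ring⟩
  · rw [if_neg hv]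
    have hex : ∃ j : Fin 4, j ≠ 3 ∧ ∃ r : R, sg L (wt e φ j) = 4 * r := by
      unfold Valid at hv
      push Not at hv
      obtain ⟨j, hj, hj'⟩ := hv
      refine ⟨j, hj, ?_⟩
      unfold sg
      rw [L.sigma]
      by_cases h0 : wt e φ j = 0
      · rw [if_pos h0]; exact ⟨c, hcR⟩
      · rw [if_neg h0, if_neg (hj' (Nat.pos_of_ne_zero h0))]
        exact ⟨0, by simp⟩
    obtain ⟨j, hj, r, hr⟩ := hex
    fin_cases j
    · exact ⟨r * sg L (wt e φ 1) * sg L (wt e φ 2), by
        have : sg L (wt e φ 0) = 4 * r := hr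
        rw [this]; ring⟩
    · exact ⟨sg L (wt e φ 0) * r * sg L (wt e φ 2), by
        have : sg L (wt e φ 1) = 4 * r := hr
        rw [this]; ring⟩
    · exact ⟨sg L (wt e φ 0) * sg L (wt e φ 1) * r, by
        have : sg L (wt e φ 2) = 4 * r := hr
        rw [this]; ring⟩
    · exact absurd rfl hj

theorem Om_mod [IsDomain R] (hq : 4 ∣ Fintype.card K) (M : Finset I)
    (hN : 4 ∣ NM e (Fintype.card K - 1) M) : ∃ r : R, Om L e M = 4 * r := by
  rw [Om_eq]
  choose g hg using fun φ => sg_prod_mod L e hq φ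
  simp_rw [hg]
  rw [Finset.sum_add_distrib, ← Finset.mul_sum, Finset.sum_neg_distrib, Finset.sum_boole]
  obtain ⟨c, hc⟩ := hN
  unfold NM at hc
  rw [hc]
  exact ⟨-(c : R) + ∑ i ∈ Fintype.piFinset (col M), g i, by push_cast; ring⟩

end

section

variable {K R : Type*} [Field K] [Fintype K] [DecidableEq K] [CommRing R] (L : Lift K R)
variable {I : Type} [Fintype I] [DecidableEq I] (e : I → ℕ)

theorem sum_symm_mod {α : Type*} [DecidableEq α] (D : α → α → R) (hD : ∀ x y, D x y = D y x)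
    (s : Finset α) : ∃ r : R, ∑ x ∈ s, ∑ y ∈ s, D x y = ∑ x ∈ s, D x x + 2 * r := by
  induction s using Finset.induction_on with
  | empty => exact ⟨0, by simp⟩
  | insert a s ha ih =>
    obtain ⟨r, hr⟩ := ih
    refine ⟨r + ∑ y ∈ s, D a y, ?_⟩
    rw [Finset.sum_insert ha, Finset.sum_insert ha, Finset.sum_insert ha]
    have h : ∀ x ∈ s, ∑ y ∈ insert a s, D x y = D x a + ∑ y ∈ s, D x y := by
      intro x _; rw [Finset.sum_insert ha]
    rw [Finset.sum_congr rfl h, Finset.sum_add_distrib, hr]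
    have h2 : ∑ x ∈ s, D x a = ∑ y ∈ s, D a y := Finset.sum_congr rfl (fun x _ => hD x a)
    rw [h2]
    ring

/-- the diagonal sum of a product is divisible by four -/
theorem diag_mod [IsDomain R] (hq : 4 ∣ Fintype.card K) (J : Finset I) (b : I → R)
    (he : ∀ i, 0 < e i) (he' : ∀ i, ¬ (Fintype.card K - 1) ∣ e i) :
    ∃ r : R, ∑ x : K, ∏ i ∈ J, (2 * L.τ x ^ e i + b i) = 4 * r := by
  have h1 : ∀ x : K, ∏ i ∈ J, (2 * L.τ x ^ e i + b i) =
      ∑ A ∈ J.powerset, (2 : R) ^ A.card * L.τ x ^ (∑ i ∈ A, e i) * ∏ i ∈ J \ A, b i := by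
    intro x
    rw [Finset.prod_add]
    apply Finset.sum_congr rfl
    intro A _
    rw [Finset.prod_mul_distrib, Finset.prod_const, Finset.prod_pow_eq_pow_sum]
  simp_rw [h1]
  rw [Finset.sum_comm]
  have h2 : ∀ A ∈ J.powerset, ∃ r : R, ∑ x : K, (2 : R) ^ A.card * L.τ x ^ (∑ i ∈ A, e i) *
      ∏ i ∈ J \ A, b i = 4 * r := by
    intro A _
    rw [← Finset.sum_mul, ← Finset.mul_sum]
    have h3 : ∃ r : R, (2 : R) ^ A.card * ∑ x : K, L.τ x ^ (∑ i ∈ A, e i) = 4 * r := by
      rcases Nat.lt_or_ge A.card 2 with hlt | hge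
      · rcases Nat.lt_or_ge A.card 1 with h0 | h1
        · have hA : A = ∅ := by
            rw [← Finset.card_eq_zero]; omega
          subst hA
          obtain ⟨c, hc⟩ := hq
          refine ⟨c, ?_⟩
          simp [hc]
        · have hA : A.card = 1 := by omega
          obtain ⟨i, hi⟩ := Finset.card_eq_one.mp hA
          subst hi
          refine ⟨0, ?_⟩
          rw [Finset.sum_singleton, L.sigma, if_neg (he i).ne', if_neg (he' i)]
          ring
      · obtain ⟨m, hm⟩ := Nat.exists_eq_add_of_le hge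
        refine ⟨2 ^ m * ∑ x : K, L.τ x ^ (∑ i ∈ A, e i), ?_⟩
        rw [hm, pow_add]; ring
    obtain ⟨r, hr⟩ := h3
    exact ⟨r * ∏ i ∈ J \ A, b i, by rw [hr]; ring⟩
  choose! g hg using h2
  rw [Finset.sum_congr rfl hg, ← Finset.mul_sum]
  exact ⟨_, rfl⟩

/-- the full product sum over `J` -/
theorem full_expand (J : Finset I) (b : I → R) :
    ∑ x : K, ∑ y : K, ∑ z : K, ∏ i ∈ J, ((L.τ x ^ e i + L.τ y ^ e i + L.τ z ^ e i) + b i) =
      ∑ M ∈ J.powerset, Om L e M * ∏ i ∈ J \ M, b i := by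
  have h1 : ∀ x y z : K, ∏ i ∈ J, ((L.τ x ^ e i + L.τ y ^ e i + L.τ z ^ e i) + b i) =
      ∑ M ∈ J.powerset,
        (∏ i ∈ M, (L.τ x ^ e i + L.τ y ^ e i + L.τ z ^ e i)) * ∏ i ∈ J \ M, b i :=
    fun x y z => Finset.prod_add _ _ _
  simp_rw [h1]
  unfold Om
  simp_rw [Finset.sum_mul]
  have hz : ∀ x y : K, ∑ z : K, ∑ M ∈ J.powerset,
      (∏ i ∈ M, (L.τ x ^ e i + L.τ y ^ e i + L.τ z ^ e i)) * ∏ i ∈ J \ M, b i =
      ∑ M ∈ J.powerset, ∑ z : K,
      (∏ i ∈ M, (L.τ x ^ e i + L.τ y ^ e i + L.τ z ^ e i)) * ∏ i ∈ J \ M, b i :=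
    fun x y => Finset.sum_comm
  simp_rw [hz]
  have hy : ∀ x : K, ∑ y : K, ∑ M ∈ J.powerset, ∑ z : K,
      (∏ i ∈ M, (L.τ x ^ e i + L.τ y ^ e i + L.τ z ^ e i)) * ∏ i ∈ J \ M, b i =
      ∑ M ∈ J.powerset, ∑ y : K, ∑ z : K,
      (∏ i ∈ M, (L.τ x ^ e i + L.τ y ^ e i + L.τ z ^ e i)) * ∏ i ∈ J \ M, b i :=
    fun x => Finset.sum_comm
  simp_rw [hy]
  rw [Finset.sum_comm]

theorem full_mod [IsDomain R] (hq : 4 ∣ Fintype.card K) (J : Finset I) (b : I → R)
    (hN : ∀ M : Finset I, M ≠ univ → 4 ∣ NM e (Fintype.card K - 1) M) :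
    ∃ r : R, ∑ x : K, ∑ y : K, ∑ z : K,
      ∏ i ∈ J, ((L.τ x ^ e i + L.τ y ^ e i + L.τ z ^ e i) + b i) =
      (if J = univ then Om L e (univ : Finset I) else 0) + 4 * r := by
  rw [full_expand]
  have h2 : ∀ M : Finset I, M ≠ univ → ∃ r : R, Om L e M = 4 * r :=
    fun M hM => Om_mod L e hq M (hN M hM)
  choose! g hg using h2
  by_cases hJ : J = univ
  · subst hJ
    rw [if_pos rfl]
    rw [← Finset.add_sum_erase _ _ (Finset.mem_powerset_self (univ : Finset I))]
    have h3 : ∀ M ∈ (univ : Finset I).powerset.erase univ,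
        Om L e M * ∏ i ∈ univ \ M, b i = 4 * (g M * ∏ i ∈ univ \ M, b i) := by
      intro M hM
      rw [hg M (Finset.ne_of_mem_erase hM)]; ring
    rw [Finset.sum_congr rfl h3, ← Finset.mul_sum]
    refine ⟨∑ M ∈ (univ : Finset I).powerset.erase univ, g M * ∏ i ∈ univ \ M, b i, ?_⟩
    simp
  · rw [if_neg hJ]
    have h3 : ∀ M ∈ J.powerset,
        Om L e M * ∏ i ∈ J \ M, b i = 4 * (g M * ∏ i ∈ J \ M, b i) := by
      intro M hM
      have hM' : M ≠ univ := by
        intro h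
        apply hJ
        rw [Finset.mem_powerset, h] at hM
        exact Finset.univ_subset_iff.mp hM
      rw [hg M hM']; ring
    rw [Finset.sum_congr rfl h3, ← Finset.mul_sum]
    exact ⟨_, by rw [zero_add]⟩

/-- The count modulo four. -/
theorem count_mod [IsDomain R] (hq : 4 ∣ Fintype.card K)
    (he : ∀ i, 0 < e i) (he' : ∀ i, ¬ (Fintype.card K - 1) ∣ e i)
    (hN : ∀ M : Finset I, M ≠ univ → 4 ∣ NM e (Fintype.card K - 1) M)
    (J0 J1 : Finset I) (hd : Disjoint J0 J1) (hu : J0 ∪ J1 = univ)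
    (h0 : J0.Nonempty) (h1 : J1.Nonempty) (b : I → R)
    (P : K → K → K → Prop) [∀ x y z, Decidable (P x y z)]
    (hP : ∀ x y z, L.π ((1 + ∏ i ∈ J0, ((L.τ x ^ e i + L.τ y ^ e i + L.τ z ^ e i) + b i)) *
      (1 + ∏ i ∈ J1, ((L.τ x ^ e i + L.τ y ^ e i + L.τ z ^ e i) + b i))) =
        if P x y z then 1 else 0)
    (hsymm : ∀ x y z, P x y z ↔ P y x z)
    (hdiag : 4 ∣ ((univ : Finset (K × K)).filter (fun p => P p.1 p.1 p.2)).card) :
    ∃ r : R, (((univ : Finset (K × K × K)).filter (fun p => P p.1 p.2.1 p.2.2)).card : R) =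
      Om L e (univ : Finset I) + 4 * r := by
  classical
  -- the lifted indicator
  set G : K → K → K → R := fun x y z =>
    (1 + ∏ i ∈ J0, ((L.τ x ^ e i + L.τ y ^ e i + L.τ z ^ e i) + b i)) *
      (1 + ∏ i ∈ J1, ((L.τ x ^ e i + L.τ y ^ e i + L.τ z ^ e i) + b i)) with hG
  have hGs : ∀ x y z, G x y z = G y x z := by
    intro x y z
    simp only [hG]
    have : ∀ i, (L.τ x ^ e i + L.τ y ^ e i + L.τ z ^ e i) + b i =
        (L.τ y ^ e i + L.τ x ^ e i + L.τ z ^ e i) + b i := fun i => by ring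
    simp_rw [this]
  let iv : K → K → K → R := fun x y z => if P x y z then 1 else 0
  have hD : ∀ x y z, ∃ d : R, G x y z - iv x y z = 2 * d := by
    intro x y z
    apply L.ker
    rw [map_sub, hP]
    simp only [iv]
    split_ifs <;> simp
  choose D hD using hD
  have hDs : ∀ x y z, D x y z = D y x z := by
    intro x y z
    have h1 := hD x y z
    have h2 := hD y x z
    have h3 : iv x y z = iv y x z := by
      simp only [iv]
      by_cases h : P x y z
      · rw [if_pos h, if_pos ((hsymm x y z).mp h)]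
      · rw [if_neg h, if_neg (fun h' => h ((hsymm x y z).mpr h'))]
    have h4 : 2 * (D x y z - D y x z) = 0 := by
      rw [mul_sub, ← h1, ← h2, hGs x y z, h3]; ring
    exact sub_eq_zero.mp (L.reg _ h4)
  -- expansion of `G`
  have hexp : ∀ x y z, G x y z =
      ∏ i ∈ (∅ : Finset I), ((L.τ x ^ e i + L.τ y ^ e i + L.τ z ^ e i) + b i) +
      ∏ i ∈ J0, ((L.τ x ^ e i + L.τ y ^ e i + L.τ z ^ e i) + b i) +
      ∏ i ∈ J1, ((L.τ x ^ e i + L.τ y ^ e i + L.τ z ^ e i) + b i) +
      ∏ i ∈ (univ : Finset I), ((L.τ x ^ e i + L.τ y ^ e i + L.τ z ^ e i) + b i) := by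
    intro x y z
    rw [← hu, Finset.prod_union hd, Finset.prod_empty]
    simp only [hG]
    ring
  have hne0 : J0 ≠ univ := by
    intro h
    obtain ⟨i, hi⟩ := h1
    exact Finset.disjoint_left.mp hd (h ▸ Finset.mem_univ i) hi
  have hne1 : J1 ≠ univ := by
    intro h
    obtain ⟨i, hi⟩ := h0
    exact Finset.disjoint_left.mp hd hi (h ▸ Finset.mem_univ i)
  have hneE : (∅ : Finset I) ≠ univ := by
    intro h
    obtain ⟨i, hi⟩ := h0
    have : i ∈ (∅ : Finset I) := h ▸ Finset.mem_univ i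
    simp at this
  -- total sum of `G`
  obtain ⟨r0, hr0⟩ := full_mod L e hq ∅ b hN
  obtain ⟨r1, hr1⟩ := full_mod L e hq J0 b hN
  obtain ⟨r2, hr2⟩ := full_mod L e hq J1 b hN
  obtain ⟨r3, hr3⟩ := full_mod L e hq univ b hN
  rw [if_neg hneE] at hr0
  rw [if_neg hne0] at hr1
  rw [if_neg hne1] at hr2
  rw [if_pos rfl] at hr3
  have hGsum : ∑ x : K, ∑ y : K, ∑ z : K, G x y z =
      Om L e (univ : Finset I) + 4 * (r0 + r1 + r2 + r3) := by
    simp_rw [hexp, Finset.sum_add_distrib]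
    rw [hr0, hr1, hr2, hr3]
    ring
  -- diagonal sum of `G`
  have hdg : ∀ (J : Finset I), ∃ r : R, ∑ z : K, ∑ x : K,
      ∏ i ∈ J, ((L.τ x ^ e i + L.τ x ^ e i + L.τ z ^ e i) + b i) = 4 * r := by
    intro J
    have h2 : ∀ z : K, ∃ r : R, ∑ x : K,
        ∏ i ∈ J, ((L.τ x ^ e i + L.τ x ^ e i + L.τ z ^ e i) + b i) = 4 * r := by
      intro z
      obtain ⟨r, hr⟩ := diag_mod L e hq J (fun i => L.τ z ^ e i + b i) he he'
      refine ⟨r, ?_⟩
      rw [← hr]
      apply Finset.sum_congr rfl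
      intro x _
      apply Finset.prod_congr rfl
      intro i _
      ring
    choose g hg using h2
    simp_rw [hg]
    rw [← Finset.mul_sum]
    exact ⟨_, rfl⟩
  obtain ⟨d0, hd0⟩ := hdg ∅
  obtain ⟨d1, hd1⟩ := hdg J0
  obtain ⟨d2, hd2⟩ := hdg J1
  obtain ⟨d3, hd3⟩ := hdg univ
  have hGd : ∑ z : K, ∑ x : K, G x x z = 4 * (d0 + d1 + d2 + d3) := by
    simp_rw [hexp, Finset.sum_add_distrib]
    rw [hd0, hd1, hd2, hd3]
    ring
  -- indicator sums
  have hiv : ∑ x : K, ∑ y : K, ∑ z : K, iv x y z =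
      (((univ : Finset (K × K × K)).filter (fun p => P p.1 p.2.1 p.2.2)).card : R) := by
    rw [← Finset.sum_boole, Fintype.sum_prod_type]
    apply Finset.sum_congr rfl
    intro x _
    rw [Fintype.sum_prod_type]
  have hivd : ∑ z : K, ∑ x : K, iv x x z =
      (((univ : Finset (K × K)).filter (fun p => P p.1 p.1 p.2)).card : R) := by
    rw [← Finset.sum_boole, Fintype.sum_prod_type, Finset.sum_comm]
  obtain ⟨c, hc⟩ := hdiag
  -- symmetric sums
  have hDsum : ∃ r : R, ∑ x : K, ∑ y : K, ∑ z : K, D x y z =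
      ∑ z : K, ∑ x : K, D x x z + 2 * r := by
    have hz : ∀ z : K, ∃ r : R, ∑ x : K, ∑ y : K, D x y z = ∑ x : K, D x x z + 2 * r :=
      fun z => sum_symm_mod (fun x y => D x y z) (fun x y => hDs x y z) univ
    choose g hg using hz
    refine ⟨∑ z : K, g z, ?_⟩
    have h1 : ∑ x : K, ∑ y : K, ∑ z : K, D x y z = ∑ z : K, ∑ x : K, ∑ y : K, D x y z := by
      have : ∀ x : K, ∑ y : K, ∑ z : K, D x y z = ∑ z : K, ∑ y : K, D x y z :=
        fun x => Finset.sum_comm
      simp_rw [this]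
      rw [Finset.sum_comm]
    rw [h1]
    simp_rw [hg]
    rw [Finset.sum_add_distrib, Finset.mul_sum]
  obtain ⟨r, hr⟩ := hDsum
  have hA : ∑ x : K, ∑ y : K, ∑ z : K, G x y z - ∑ x : K, ∑ y : K, ∑ z : K, iv x y z =
      2 * ∑ x : K, ∑ y : K, ∑ z : K, D x y z := by
    simp_rw [Finset.mul_sum, ← hD, Finset.sum_sub_distrib]
  have hB : ∑ z : K, ∑ x : K, G x x z - ∑ z : K, ∑ x : K, iv x x z =
      2 * ∑ z : K, ∑ x : K, D x x z := by
    simp_rw [Finset.mul_sum, ← hD, Finset.sum_sub_distrib]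
  refine ⟨(r0 + r1 + r2 + r3) - (d0 + d1 + d2 + d3) + (c : R) - r, ?_⟩
  rw [← hiv]
  rw [hGsum, hr] at hA
  rw [hGd, hivd, hc] at hB
  push_cast at hB
  linear_combination (-1 : R) * hA + hB

end

end Dob
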