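import Mathlib
import Pool.Agent.Dob.Digits
import Pool.Agent.Dob.Witt

/-!
The number of ordered partitions of a proper set of digits into three nonempty zero-sum sets
is divisible by four.
-/

open Finset

namespace Dob

/-- four blocks: symmetric sets and the carries of the class sizes -/
theorem four_sym (k : ℕ) (hk : 0 < k) (ξ η : Fin 4 → ℕ → ℤ)
    (hξ : ∀ i p, ξ i p = 0 ∨ ξ i p = 1) (hη : ∀ i p, η i p = 0 ∨ η i p = 1)
    (hξp : ∀ i p, ξ i (p + 5 * k) = ξ i p) (hηp : ∀ i p, η i (p + 5 * k) = η i p)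
    (hne : ∀ i, ∃ p, ξ i p = 1 ∨ η i p = 1)
    (hξs : ∀ p, ∑ i, ξ i p = 1) (hηs : ∀ p, ∑ i, η i p = 1)
    (hz : ∀ i, ((2 : ℤ) ^ (5 * k) - 1) ∣
      V (5 * k) (ξ i) 0 + ((nu k : ℤ) * 2 ^ (5 * k - 1) - 1) * V (5 * k) (η i) 0) :
    (∀ i p, ξ i p = η i p) ∧ ∃ κ : Fin 4 → ℕ → ℤ, (∀ i p, 1 ≤ κ i p) ∧
      (∀ p, ∑ i, κ i p = 5) ∧ (∀ i p, κ i p + S5 k (ξ i) p = 2 * κ i (p + 1)) := by
  have hall := fun i => mkBlk k hk (ξ i) (η i) (hξ i) (hη i) (hξp i) (hηp i) (hne i) (hz i)
  by_cases hex : ∃ i, ∀ p, ξ i p = 0 ∧ η i p = 1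
  · exfalso
    obtain ⟨i, hi⟩ := hex
    have h2m : (2 : ℤ) ≤ 2 ^ (5 * k) := by
      calc (2 : ℤ) = 2 ^ 1 := by norm_num
        _ ≤ 2 ^ (5 * k) := pow_le_pow_right₀ (by norm_num) (by omega)
    have hη0 : ∀ j, j ≠ i → ∀ p, η j p = 0 := by
      intro j hj p
      have h1 := hηs p
      rw [← Finset.add_sum_erase _ _ (Finset.mem_univ i), (hi p).2] at h1
      have h2 : ∑ j ∈ univ.erase i, η j p = 0 := by linarith
      have h3 := (Finset.sum_eq_zero_iff_of_nonneg (fun j _ => nn01 (hη j) p)).mp h2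
      exact h3 j (Finset.mem_erase.mpr ⟨hj, Finset.mem_univ _⟩)
    have hξ1 : ∀ j, j ≠ i → ∀ p, ξ j p = 1 := by
      intro j hj
      have h1 := hz j
      have h2 : V (5 * k) (η j) 0 = 0 := by
        unfold V
        apply Finset.sum_eq_zero
        intro t _
        rw [hη0 j hj]; ring
      rw [h2, mul_zero, add_zero] at h1
      obtain ⟨u, hu⟩ := h1
      have hub := V_le (5 * k) (ξ j) 0 1 (fun q => (bd01 (hξ j q)).2)
      have hlb := V_nonneg (5 * k) (ξ j) 0 (nn01 (hξ j))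
      rw [hu] at hub hlb
      have hu1 : u ≤ 1 := by
        by_contra hcon
        push Not at hcon
        nlinarith
      have hu0 : 0 ≤ u := by
        by_contra hcon
        push Not at hcon
        nlinarith
      have huc : u = 0 ∨ u = 1 := by omega
      rcases huc with rfl | rfl
      · exfalso
        rw [mul_zero] at hu
        have h3 := V_eq_zero (5 * k) (ξ j) 0 (nn01 (hξ j)) hu
        have h4 := per_zero (5 * k) (by omega) (ξ j) (hξp j) 0 h3
        obtain ⟨q, hq⟩ := hne j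
        rcases hq with hq | hq
        · rw [h4] at hq; norm_num at hq
        · rw [hη0 j hj] at hq; norm_num at hq
      · exact V_max (5 * k) (by omega) (ξ j) (hξp j) 0 1 (fun q => (bd01 (hξ j q)).2)
          (by rw [hu]; ring)
    have hpick : ∀ i : Fin 4, ∃ j j' : Fin 4, j ≠ i ∧ j' ≠ i ∧ j ≠ j' := by decide
    obtain ⟨j, j', h1, h2, h3⟩ := hpick i
    have h4 := hξs 0
    rw [← Finset.add_sum_erase _ _ (Finset.mem_univ j),
      ← Finset.add_sum_erase _ _ (Finset.mem_erase.mpr ⟨h3.symm, Finset.mem_univ j'⟩),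
      hξ1 j h1, hξ1 j' h2] at h4
    have h5 : 0 ≤ ∑ l ∈ (univ.erase j).erase j', ξ l 0 :=
      Finset.sum_nonneg (fun l _ => nn01 (hξ l) 0)
    linarith
  · push Not at hex
    have hB : ∀ i, ∃ σ c κ : ℕ → ℤ, Blk k (ξ i) (η i) σ c κ := by
      intro i
      rcases hall i with h | h
      · exact h
      · obtain ⟨p, hp⟩ := hex i
        exact absurd (h p).2 (hp (h p).1)
    choose σ c κ hB using hB
    obtain ⟨h1, h2, h3, h4⟩ := four_block hk ξ η σ c κ hB hξs hηs
    exact ⟨h1, κ, h2, h3, h4⟩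

/-- The binary digits: `(b, r, t)` is the digit `t + k r` of the first (`b = false`) or of the
second (`b = true`) coordinate. -/
abbrev Ix (k : ℕ) := Bool × Fin 5 × Fin k

/-- The exponent of `G`. -/
def dp (k : ℕ) : ℕ := nu k * 2 ^ (5 * k - 1) - 1

/-- The weights. -/
def ex (k : ℕ) (i : Ix k) : ℕ := (if i.1 then dp k else 1) * 2 ^ ((i.2.2 : ℕ) + k * (i.2.1 : ℕ))

theorem nu_pos (k : ℕ) : 0 < nu k := by unfold nu; positivity

theorem dp_cast (k : ℕ) : (dp k : ℤ) = (nu k : ℤ) * 2 ^ (5 * k - 1) - 1 := by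
  unfold dp
  have h : 1 ≤ nu k * 2 ^ (5 * k - 1) := Nat.succ_le_of_lt (Nat.mul_pos (nu_pos k) (by positivity))
  rw [Nat.cast_sub h]
  push_cast
  ring

/-- the periodic sequence of a table -/
def ext {k : ℕ} (hk : 0 < k) (u : Fin 5 → Fin k → ℤ) (p : ℕ) : ℤ :=
  u ⟨(p / k) % 5, Nat.mod_lt _ (by norm_num)⟩ ⟨p % k, Nat.mod_lt _ hk⟩

theorem ext_per {k : ℕ} (hk : 0 < k) (u : Fin 5 → Fin k → ℤ) (p : ℕ) :
    ext hk u (p + 5 * k) = ext hk u p := by
  unfold ext
  have h1 : (p + 5 * k) / k % 5 = p / k % 5 := by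
    rw [Nat.add_mul_div_right _ _ hk]; omega
  have h2 : (p + 5 * k) % k = p % k := Nat.add_mul_mod_self_right _ _ _
  simp only [h1, h2]

theorem ext_at {k : ℕ} (hk : 0 < k) (u : Fin 5 → Fin k → ℤ) (r : Fin 5) (t : Fin k) :
    ext hk u ((t : ℕ) + k * (r : ℕ)) = u r t := by
  unfold ext
  have h1 : ((t : ℕ) + k * (r : ℕ)) / k % 5 = r := by
    rw [Nat.add_mul_div_left _ _ hk, Nat.div_eq_of_lt t.2, Nat.zero_add, Nat.mod_eq_of_lt r.2]
  have h2 : ((t : ℕ) + k * (r : ℕ)) % k = t := by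
    rw [Nat.add_mul_mod_self_left, Nat.mod_eq_of_lt t.2]
  simp only [h1, h2]

theorem ext_V {k : ℕ} (hk : 0 < k) (u : Fin 5 → Fin k → ℤ) :
    V (5 * k) (ext hk u) 0 = ∑ r : Fin 5, ∑ t : Fin k, 2 ^ ((t : ℕ) + k * (r : ℕ)) * u r t := by
  unfold V
  rw [Finset.sum_range, ← finProdFinEquiv.sum_comp, Fintype.sum_prod_type]
  apply Finset.sum_congr rfl
  intro r _
  apply Finset.sum_congr rfl
  intro t _
  simp only [finProdFinEquiv_apply_val, Nat.zero_add]
  rw [ext_at]

theorem rot5 (g : Fin 5 → ℤ) (m : ℕ) (h0 : m % 5 < 5) (h1 : (m + 1) % 5 < 5)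
    (h2 : (m + 2) % 5 < 5) (h3 : (m + 3) % 5 < 5) (h4 : (m + 4) % 5 < 5) :
    g ⟨m % 5, h0⟩ + g ⟨(m + 1) % 5, h1⟩ + g ⟨(m + 2) % 5, h2⟩ + g ⟨(m + 3) % 5, h3⟩ +
      g ⟨(m + 4) % 5, h4⟩ = ∑ r, g r := by
  rw [Fin.sum_univ_five]
  have hcases : m % 5 = 0 ∨ m % 5 = 1 ∨ m % 5 = 2 ∨ m % 5 = 3 ∨ m % 5 = 4 := by omega
  rcases hcases with h | h | h | h | h
  · have e1 : (m + 1) % 5 = 1 := by omega
    have e2 : (m + 2) % 5 = 2 := by omega
    have e3 : (m + 3) % 5 = 3 := by omega
    have e4 : (m + 4) % 5 = 4 := by omega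
    simp only [h, e1, e2, e3, e4]
    rfl
  · have e1 : (m + 1) % 5 = 2 := by omega
    have e2 : (m + 2) % 5 = 3 := by omega
    have e3 : (m + 3) % 5 = 4 := by omega
    have e4 : (m + 4) % 5 = 0 := by omega
    simp only [h, e1, e2, e3, e4]
    show g 1 + g 2 + g 3 + g 4 + g 0 = _
    ring
  · have e1 : (m + 1) % 5 = 3 := by omega
    have e2 : (m + 2) % 5 = 4 := by omega
    have e3 : (m + 3) % 5 = 0 := by omega
    have e4 : (m + 4) % 5 = 1 := by omega
    simp only [h, e1, e2, e3, e4]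
    show g 2 + g 3 + g 4 + g 0 + g 1 = _
    ring
  · have e1 : (m + 1) % 5 = 4 := by omega
    have e2 : (m + 2) % 5 = 0 := by omega
    have e3 : (m + 3) % 5 = 1 := by omega
    have e4 : (m + 4) % 5 = 2 := by omega
    simp only [h, e1, e2, e3, e4]
    show g 3 + g 4 + g 0 + g 1 + g 2 = _
    ring
  · have e1 : (m + 1) % 5 = 0 := by omega
    have e2 : (m + 2) % 5 = 1 := by omega
    have e3 : (m + 3) % 5 = 2 := by omega
    have e4 : (m + 4) % 5 = 3 := by omega
    simp only [h, e1, e2, e3, e4]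
    show g 4 + g 0 + g 1 + g 2 + g 3 = _
    ring

theorem ext_S5 {k : ℕ} (hk : 0 < k) (u : Fin 5 → Fin k → ℤ) (p : ℕ) :
    S5 k (ext hk u) p = ∑ r : Fin 5, u r ⟨p % k, Nat.mod_lt _ hk⟩ := by
  unfold S5 ext
  have d1 : (p + k) / k = p / k + 1 := Nat.add_div_right _ hk
  have d2 : (p + 2 * k) / k = p / k + 2 := Nat.add_mul_div_right _ _ hk
  have d3 : (p + 3 * k) / k = p / k + 3 := Nat.add_mul_div_right _ _ hk
  have d4 : (p + 4 * k) / k = p / k + 4 := Nat.add_mul_div_right _ _ hk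
  have m1 : (p + k) % k = p % k := Nat.add_mod_right _ _
  have m2 : (p + 2 * k) % k = p % k := Nat.add_mul_mod_self_right _ _ _
  have m3 : (p + 3 * k) % k = p % k := Nat.add_mul_mod_self_right _ _ _
  have m4 : (p + 4 * k) % k = p % k := Nat.add_mul_mod_self_right _ _ _
  simp only [d1, d2, d3, d4, m1, m2, m3, m4]
  exact rot5 (fun r => u r ⟨p % k, Nat.mod_lt _ hk⟩) (p / k) _ _ _ _ _

/-- the indicator tables of a colour -/
def tab {k : ℕ} (φ : Ix k → Fin 4) (b : Bool) (j : Fin 4) (r : Fin 5) (t : Fin k) : ℤ :=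
  if φ (b, r, t) = j then 1 else 0

theorem wt_eq {k : ℕ} (hk : 0 < k) (φ : Ix k → Fin 4) (j : Fin 4) :
    (wt (ex k) φ j : ℤ) = V (5 * k) (ext hk (tab φ false j)) 0 +
      (dp k : ℤ) * V (5 * k) (ext hk (tab φ true j)) 0 := by
  unfold wt
  rw [ext_V, ext_V]
  push_cast
  rw [Fintype.sum_prod_type, Fintype.sum_bool, add_comm, Fintype.sum_prod_type,
    Fintype.sum_prod_type]
  congr 1
  · apply Finset.sum_congr rfl
    intro r _
    apply Finset.sum_congr rfl
    intro t _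
    unfold ex tab
    by_cases h : φ (false, r, t) = j
    · simp [h]
    · simp [h]
  · rw [Finset.mul_sum]
    apply Finset.sum_congr rfl
    intro r _
    rw [Finset.mul_sum]
    apply Finset.sum_congr rfl
    intro t _
    unfold ex tab
    by_cases h : φ (true, r, t) = j
    · simp [h]
    · simp [h]

theorem ex_pos {k : ℕ} (hk : 0 < k) (i : Ix k) : 0 < ex k i := by
  unfold ex
  apply Nat.mul_pos _ (by positivity)
  by_cases h : i.1 = true
  · rw [if_pos h]
    unfold dp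
    have h1 : 2 ≤ nu k * 2 ^ (5 * k - 1) := by
      calc 2 = 1 * 2 ^ 1 := by norm_num
        _ ≤ nu k * 2 ^ (5 * k - 1) :=
          Nat.mul_le_mul (nu_pos k) (Nat.pow_le_pow_right (by norm_num) (by omega))
    omega
  · rw [if_neg h]; norm_num

theorem wt_pos_iff {k : ℕ} (hk : 0 < k) (φ : Ix k → Fin 4) (j : Fin 4) :
    0 < wt (ex k) φ j ↔ ∃ i, φ i = j := by
  unfold wt
  constructor
  · intro h
    by_contra hno
    push Not at hno
    have : ∑ i, (if φ i = j then ex k i else 0) = 0 :=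
      Finset.sum_eq_zero (fun i _ => if_neg (hno i))
    omega
  · rintro ⟨i, hi⟩
    apply Finset.sum_pos' (fun _ _ => Nat.zero_le _) ⟨i, Finset.mem_univ _, ?_⟩
    rw [if_pos hi]
    exact ex_pos hk i

theorem wt_total {k : ℕ} (hk : 0 < k) (φ : Ix k → Fin 4) :
    ∑ j, (wt (ex k) φ j : ℤ) = (1 + (dp k : ℤ)) * (2 ^ (5 * k) - 1) := by
  simp_rw [wt_eq hk]
  rw [Finset.sum_add_distrib, ← Finset.mul_sum]
  have h : ∀ b : Bool, ∑ j, V (5 * k) (ext hk (tab φ b j)) 0 = 2 ^ (5 * k) - 1 := by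
    intro b
    rw [← V_one (5 * k) 0]
    unfold V
    rw [Finset.sum_comm]
    apply Finset.sum_congr rfl
    intro p _
    rw [← Finset.mul_sum]
    congr 1
    unfold ext tab
    simp
  rw [h, h]
  ring

theorem ext01 {k : ℕ} (hk : 0 < k) (φ : Ix k → Fin 4) (b : Bool) (j : Fin 4) (p : ℕ) :
    ext hk (tab φ b j) p = 0 ∨ ext hk (tab φ b j) p = 1 := by
  unfold ext tab
  split_ifs
  · right; rfl
  · left; rfl

/-- the size of the colour class `j` among the digits of class `t` -/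
def xs {k : ℕ} (φ : Ix k → Fin 4) (j : Fin 4) (t : Fin k) : ℤ := ∑ r : Fin 5, tab φ false j r t

/-- STRUCTURE OF VALID COLOURINGS OF A PROPER SET -/
theorem valid_struct {k : ℕ} (hk : 0 < k) (φ : Ix k → Fin 4)
    (hv : Valid (ex k) (2 ^ (5 * k) - 1) φ) (h3 : ∃ i, φ i = 3) :
    (∀ r t, φ (false, r, t) = φ (true, r, t)) ∧
    (∀ t : Fin k, ∃ j1 j2 : Fin 4, j1 ≠ j2 ∧ j1 ≠ 3 ∧ j2 ≠ 3 ∧ Odd (xs φ j1 t) ∧
      Odd (xs φ j2 t)) := by
  have hcast : (((2 ^ (5 * k) - 1 : ℕ)) : ℤ) = 2 ^ (5 * k) - 1 := by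
    rw [Nat.cast_sub Nat.one_le_two_pow]; push_cast; ring
  have hd : ∀ j, ((2 : ℤ) ^ (5 * k) - 1) ∣ (wt (ex k) φ j : ℤ) := by
    have h1 : ∀ j : Fin 4, j ≠ 3 → ((2 : ℤ) ^ (5 * k) - 1) ∣ (wt (ex k) φ j : ℤ) := by
      intro j hj
      rw [← hcast]
      exact Int.natCast_dvd_natCast.mpr (hv j hj).2
    intro j
    by_cases hj : j = 3
    · subst hj
      have h2 := wt_total hk φ
      rw [Fin.sum_univ_four] at h2
      have h3 : (wt (ex k) φ 3 : ℤ) = (1 + (dp k : ℤ)) * (2 ^ (5 * k) - 1) -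
          (wt (ex k) φ 0 : ℤ) - (wt (ex k) φ 1 : ℤ) - (wt (ex k) φ 2 : ℤ) := by linarith
      rw [h3]
      exact dvd_sub (dvd_sub (dvd_sub (Dvd.intro_left _ rfl) (h1 0 (by decide)))
        (h1 1 (by decide))) (h1 2 (by decide))
    · exact h1 j hj
  have hne : ∀ j, ∃ i, φ i = j := by
    intro j
    by_cases hj : j = 3
    · subst hj; exact h3
    · exact (wt_pos_iff hk φ j).mp (hv j hj).1
  have hsum : ∀ (b : Bool) (p : ℕ), ∑ j, ext hk (tab φ b j) p = 1 := by
    intro b p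
    unfold ext tab
    simp
  obtain ⟨hsym, κ, hκ1, hκ2, hκ3⟩ := four_sym k hk (fun j => ext hk (tab φ false j))
    (fun j => ext hk (tab φ true j)) (fun j p => ext01 hk φ false j p)
    (fun j p => ext01 hk φ true j p) (fun j p => ext_per hk _ p) (fun j p => ext_per hk _ p)
    (fun j => by
      obtain ⟨⟨b, r, t⟩, hi⟩ := hne j
      refine ⟨(t : ℕ) + k * (r : ℕ), ?_⟩
      rw [ext_at, ext_at]
      unfold tab
      cases b
      · left; rw [if_pos hi]
      · right; rw [if_pos hi])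
    (hsum false) (hsum true)
    (fun j => by
      have := hd j
      rw [wt_eq hk, dp_cast] at this
      exact this)
  constructor
  · intro r t
    have h1 := hsym (φ (true, r, t)) ((t : ℕ) + k * (r : ℕ))
    rw [ext_at, ext_at] at h1
    unfold tab at h1
    rw [if_pos rfl] at h1
    by_contra hno
    rw [if_neg hno] at h1
    norm_num at h1
  · intro t
    have hx : ∀ j, κ j (t : ℕ) + xs φ j t = 2 * κ j ((t : ℕ) + 1) := by
      intro j
      have h1 := hκ3 j (t : ℕ)
      rw [ext_S5] at h1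
      have h2 : (⟨(t : ℕ) % k, Nat.mod_lt _ hk⟩ : Fin k) = t := by
        apply Fin.ext
        exact Nat.mod_eq_of_lt t.2
      rw [h2] at h1
      exact h1
    have hodd : ∀ j, κ j (t : ℕ) = 1 → Odd (xs φ j t) := by
      intro j hj
      have h1 := hx j
      rw [hj] at h1
      exact ⟨κ j ((t : ℕ) + 1) - 1, by linarith⟩
    have h5 := hκ2 (t : ℕ)
    rw [Fin.sum_univ_four] at h5
    have g0 := hκ1 0 (t : ℕ)
    have g1 := hκ1 1 (t : ℕ)
    have g2 := hκ1 2 (t : ℕ)
    have g3 := hκ1 3 (t : ℕ)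
    by_cases e0 : κ 0 (t : ℕ) = 1
    · by_cases e1 : κ 1 (t : ℕ) = 1
      · exact ⟨0, 1, by decide, by decide, by decide, hodd 0 e0, hodd 1 e1⟩
      · have e2 : κ 2 (t : ℕ) = 1 := by omega
        exact ⟨0, 2, by decide, by decide, by decide, hodd 0 e0, hodd 2 e2⟩
    · have e1 : κ 1 (t : ℕ) = 1 := by omega
      have e2 : κ 2 (t : ℕ) = 1 := by omega
      exact ⟨1, 2, by decide, by decide, by decide, hodd 1 e1, hodd 2 e2⟩

/-- The condition on class sizes. -/
def SizeOK {k : ℕ} (φ : Ix k → Fin 4) : Prop :=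
  ∀ j : Fin 4, j ≠ 3 → (∃ t, xs φ j t ≠ 0) ∧ ((2 : ℤ) ^ k - 1) ∣ ∑ t : Fin k, 2 ^ (t : ℕ) * xs φ j t

theorem V_fin (k : ℕ) (f : ℕ → ℤ) : V k f 0 = ∑ t : Fin k, 2 ^ (t : ℕ) * f t := by
  unfold V
  rw [Finset.sum_range]
  apply Finset.sum_congr rfl
  intro t _
  rw [Nat.zero_add]

theorem V_ext_class {k : ℕ} (hk : 0 < k) (φ : Ix k → Fin 4) (j : Fin 4) :
    V k (S5 k (ext hk (tab φ false j))) 0 = ∑ t : Fin k, 2 ^ (t : ℕ) * xs φ j t := by
  rw [V_fin]
  apply Finset.sum_congr rfl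
  intro t _
  rw [ext_S5]
  have h2 : (⟨(t : ℕ) % k, Nat.mod_lt _ hk⟩ : Fin k) = t := by
    apply Fin.ext
    exact Nat.mod_eq_of_lt t.2
  rw [h2]
  rfl

theorem valid_iff_size {k : ℕ} (hk : 0 < k) (φ : Ix k → Fin 4)
    (hs : ∀ r t, φ (false, r, t) = φ (true, r, t)) :
    Valid (ex k) (2 ^ (5 * k) - 1) φ ↔ SizeOK φ := by
  have hcast : (((2 ^ (5 * k) - 1 : ℕ)) : ℤ) = 2 ^ (5 * k) - 1 := by
    rw [Nat.cast_sub Nat.one_le_two_pow]; push_cast; ring
  have hQk : (2 : ℤ) ≤ 2 ^ k := by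
    calc (2 : ℤ) = 2 ^ 1 := by norm_num
      _ ≤ 2 ^ k := pow_le_pow_right₀ (by norm_num) hk
  unfold Valid SizeOK
  apply forall_congr'
  intro j
  apply imp_congr_right
  intro _
  apply and_congr
  · rw [wt_pos_iff hk]
    constructor
    · rintro ⟨⟨b, r, t⟩, hi⟩
      have hf : φ (false, r, t) = j := by
        cases b
        · exact hi
        · rw [hs]; exact hi
      refine ⟨t, ?_⟩
      have : 0 < xs φ j t := by
        unfold xs
        apply Finset.sum_pos'
        · intro r _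
          unfold tab
          split_ifs <;> norm_num
        · refine ⟨r, Finset.mem_univ _, ?_⟩
          unfold tab
          rw [if_pos hf]; norm_num
      exact this.ne'
    · rintro ⟨t, ht⟩
      by_contra hno
      push Not at hno
      apply ht
      unfold xs
      apply Finset.sum_eq_zero
      intro r _
      unfold tab
      rw [if_neg (hno _)]
  · have hAA : tab φ true j = tab φ false j := by
      funext r t
      unfold tab
      rw [hs]
    have hw : (wt (ex k) φ j : ℤ) = (nu k : ℤ) * (2 ^ (5 * k - 1) *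
        V (5 * k) (ext hk (tab φ false j)) 0) := by
      rw [wt_eq hk, hAA, dp_cast]; ring
    rw [← Int.natCast_dvd_natCast, hcast, hw, ← nu_mul k,
      mul_comm ((2 : ℤ) ^ k - 1) (nu k : ℤ)]
    have hnu0 : (nu k : ℤ) ≠ 0 := by exact_mod_cast (nu_pos k).ne'
    rw [mul_dvd_mul_iff_left hnu0]
    have hcop : IsCoprime ((2 : ℤ) ^ k - 1) (2 ^ (5 * k - 1)) := by
      apply IsCoprime.pow_right
      refine ⟨-1, 2 ^ (k - 1), ?_⟩
      have : (2 : ℤ) ^ (k - 1) * 2 = 2 ^ k := by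
        rw [← pow_succ, Nat.sub_add_cancel hk]
      rw [this]; ring
    have hmod := V5_mod k (ext hk (tab φ false j)) 0
    rw [V_ext_class hk] at hmod
    constructor
    · intro h
      have h1 := hcop.dvd_of_dvd_mul_left h
      exact (dvd_iff_dvd_of_dvd_sub hmod).mp h1
    · intro h
      exact ((dvd_iff_dvd_of_dvd_sub hmod).mpr h).mul_left _

/-- an involution preserving `S` with at most one fixed point in `S` -/
theorem invol_exists {α : Type} [DecidableEq α] (n : ℕ) : ∀ S : Finset α, S.card = n →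
    ∃ ρ : Equiv.Perm α, (∀ a, ρ (ρ a) = a) ∧ (∀ a, a ∉ S → ρ a = a) ∧
      (∀ a, a ∈ S → ρ a ∈ S) ∧ (∀ a ∈ S, ∀ b ∈ S, ρ a = a → ρ b = b → a = b) := by
  induction n using Nat.strong_induction_on with
  | _ n ih =>
    intro S hS
    rcases Nat.lt_or_ge n 2 with hn | hn
    · refine ⟨1, fun a => rfl, fun a _ => rfl, fun a ha => ha, ?_⟩
      intro a ha b hb _ _
      exact Finset.card_le_one.mp (by omega) a ha b hb
    · obtain ⟨a, ha, b, hb, hab⟩ := Finset.one_lt_card.mp (by omega : 1 < S.card)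
      have hb' : b ∈ S.erase a := Finset.mem_erase.mpr ⟨hab.symm, hb⟩
      have hcard : ((S.erase a).erase b).card = n - 2 := by
        rw [Finset.card_erase_of_mem hb', Finset.card_erase_of_mem ha, hS]; omega
      obtain ⟨ρ, h1, h2, h3, h4⟩ := ih (n - 2) (by omega) _ hcard
      have hρa : ρ a = a := h2 a (by simp)
      have hρb : ρ b = b := h2 b (by simp)
      have hne : ∀ c, c ≠ a → c ≠ b → ρ c ≠ a ∧ ρ c ≠ b := by
        intro c hca hcb
        constructor
        · intro h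
          apply hca
          rw [← h1 c, h, hρa]
        · intro h
          apply hcb
          rw [← h1 c, h, hρb]
      have hval : ∀ c, c ≠ a → c ≠ b → (Equiv.swap a b * ρ) c = ρ c := by
        intro c hca hcb
        obtain ⟨h5, h6⟩ := hne c hca hcb
        exact Equiv.swap_apply_of_ne_of_ne h5 h6
      have hvala : (Equiv.swap a b * ρ) a = b := by
        show Equiv.swap a b (ρ a) = b
        rw [hρa, Equiv.swap_apply_left]
      have hvalb : (Equiv.swap a b * ρ) b = a := by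
        show Equiv.swap a b (ρ b) = a
        rw [hρb, Equiv.swap_apply_right]
      refine ⟨Equiv.swap a b * ρ, ?_, ?_, ?_, ?_⟩
      · intro c
        by_cases hca : c = a
        · subst hca; rw [hvala, hvalb]
        by_cases hcb : c = b
        · subst hcb; rw [hvalb, hvala]
        obtain ⟨h5, h6⟩ := hne c hca hcb
        rw [hval c hca hcb, hval _ h5 h6, h1]
      · intro c hc
        have hca : c ≠ a := fun h => hc (h ▸ ha)
        have hcb : c ≠ b := fun h => hc (h ▸ hb)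
        rw [hval c hca hcb]
        exact h2 c (fun h => hc (Finset.mem_of_mem_erase (Finset.mem_of_mem_erase h)))
      · intro c hc
        by_cases hca : c = a
        · subst hca; rw [hvala]; exact hb
        by_cases hcb : c = b
        · subst hcb; rw [hvalb]; exact ha
        rw [hval c hca hcb]
        exact Finset.mem_of_mem_erase (Finset.mem_of_mem_erase (h3 c
          (Finset.mem_erase.mpr ⟨hcb, Finset.mem_erase.mpr ⟨hca, hc⟩⟩)))
      · intro c hc d hd hfc hfd
        have hca : c ≠ a := by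
          intro h; subst h; rw [hvala] at hfc; exact hab hfc.symm
        have hcb : c ≠ b := by
          intro h; subst h; rw [hvalb] at hfc; exact hab hfc
        have hda : d ≠ a := by
          intro h; subst h; rw [hvala] at hfd; exact hab hfd.symm
        have hdb : d ≠ b := by
          intro h; subst h; rw [hvalb] at hfd; exact hab hfd
        rw [hval c hca hcb] at hfc
        rw [hval d hda hdb] at hfd
        exact h4 c (Finset.mem_erase.mpr ⟨hcb, Finset.mem_erase.mpr ⟨hca, hc⟩⟩) d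
          (Finset.mem_erase.mpr ⟨hdb, Finset.mem_erase.mpr ⟨hda, hd⟩⟩) hfc hfd

/-- an invariant set of odd size contains a fixed point -/
theorem fixed_of_odd {α : Type} [DecidableEq α] (ρ : Equiv.Perm α) (h : ∀ a, ρ (ρ a) = a)
    (A : Finset α) (hA : ∀ a ∈ A, ρ a ∈ A) (hodd : Odd A.card) : ∃ a ∈ A, ρ a = a := by
  by_contra hno
  push Not at hno
  have h1 : ∑ a ∈ A, (1 : ZMod 2) = 0 := by
    apply Finset.sum_involution (fun a _ => ρ a)
    · intro a _; decide
    · intro a ha _; exact hno a ha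
    · intro a ha; exact hA a ha
    · intro a _; exact h a
  rw [Finset.sum_const, nsmul_eq_mul, mul_one] at h1
  rw [ZMod.natCast_eq_zero_iff] at h1
  exact (Nat.not_even_iff_odd.mpr hodd) (even_iff_two_dvd.mpr h1)

/-- two commuting involutions acting freely -/
theorem four_dvd_card {α : Type} [DecidableEq α] (X : Finset α) (f g : α → α)
    (hf : ∀ x ∈ X, f x ∈ X) (hg : ∀ x ∈ X, g x ∈ X) (hff : ∀ x, f (f x) = x)
    (hgg : ∀ x, g (g x) = x) (hfg : ∀ x, f (g x) = g (f x))
    (h1 : ∀ x ∈ X, f x ≠ x) (h2 : ∀ x ∈ X, g x ≠ x) (h3 : ∀ x ∈ X, f (g x) ≠ x) :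
    4 ∣ X.card := by
  let F : α → Finset α := fun x => {x, f x, g x, f (g x)}
  have hF : ∀ x y, y ∈ F x → F y = F x := by
    intro x y hy
    simp only [F, Finset.mem_insert, Finset.mem_singleton] at hy
    rcases hy with rfl | rfl | rfl | rfl
    · rfl
    · ext z
      simp only [F, Finset.mem_insert, Finset.mem_singleton, hff, ← hfg]
      tauto
    · ext z
      simp only [F, Finset.mem_insert, Finset.mem_singleton, hgg]
      tauto
    · ext z
      have e1 : g (f (g x)) = f x := by rw [← hfg, hgg]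
      simp only [F, Finset.mem_insert, Finset.mem_singleton, hff, e1]
      tauto
  have hcard4 : ∀ x ∈ X, (F x).card = 4 := by
    intro x hx
    have a1 : x ≠ f x := (h1 x hx).symm
    have a2 : x ≠ g x := (h2 x hx).symm
    have a3 : x ≠ f (g x) := (h3 x hx).symm
    have a4 : f x ≠ g x := by
      intro h
      apply h3 x hx
      rw [← h, hff]
    have a5 : f x ≠ f (g x) := by
      intro h
      apply a2
      have := congrArg f h
      rwa [hff, hff] at this
    have a6 : g x ≠ f (g x) := (h1 (g x) (hg x hx)).symm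
    simp only [F]
    rw [Finset.card_insert_of_notMem, Finset.card_insert_of_notMem, Finset.card_insert_of_notMem,
      Finset.card_singleton]
    · simpa using a6
    · simp only [Finset.mem_insert, Finset.mem_singleton, not_or]
      exact ⟨a4, a5⟩
    · simp only [Finset.mem_insert, Finset.mem_singleton, not_or]
      exact ⟨a1, a2, a3⟩
  rw [Finset.card_eq_sum_card_image F X]
  apply Finset.dvd_sum
  intro b hb
  obtain ⟨x, hx, rfl⟩ := Finset.mem_image.mp hb
  have : X.filter (fun y => F y = F x) = F x := by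
    ext y
    rw [Finset.mem_filter]
    constructor
    · rintro ⟨_, h⟩
      rw [← h]
      simp [F]
    · intro hy
      refine ⟨?_, hF x y hy⟩
      simp only [F, Finset.mem_insert, Finset.mem_singleton] at hy
      rcases hy with rfl | rfl | rfl | rfl
      · exact hx
      · exact hf x hx
      · exact hg x hx
      · exact hf _ (hg x hx)
  rw [this, hcard4 x hx]

/-- the permutation of digits in the class `t` -/
def mv {k : ℕ} (t : Fin k) (ρ : Equiv.Perm (Fin 5)) (i : Ix k) : Ix k :=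
  (i.1, if i.2.2 = t then ρ i.2.1 else i.2.1, i.2.2)

theorem mv_mv {k : ℕ} (t : Fin k) (ρ : Equiv.Perm (Fin 5)) (h : ∀ a, ρ (ρ a) = a) (i : Ix k) :
    mv t ρ (mv t ρ i) = i := by
  obtain ⟨b, r, u⟩ := i
  unfold mv
  by_cases hu : u = t
  · simp [hu, h]
  · simp [hu]

theorem mv_comm {k : ℕ} (t t' : Fin k) (ρ ρ' : Equiv.Perm (Fin 5)) (hne : t ≠ t') (i : Ix k) :
    mv t ρ (mv t' ρ' i) = mv t' ρ' (mv t ρ i) := by
  obtain ⟨b, r, u⟩ := i
  unfold mv
  by_cases hu : u = t
  · subst hu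
    simp [hne]
  · by_cases hu' : u = t'
    · subst hu'
      simp [hu]
    · simp [hu, hu']

theorem xs_mv {k : ℕ} (t : Fin k) (ρ : Equiv.Perm (Fin 5)) (φ : Ix k → Fin 4) (j : Fin 4)
    (u : Fin k) : xs (fun i => φ (mv t ρ i)) j u = xs φ j u := by
  unfold xs
  by_cases hu : u = t
  · subst hu
    have hs := Equiv.sum_comp ρ (fun r => tab φ false j r u)
    rw [← hs]
    apply Finset.sum_congr rfl
    intro r _
    unfold tab mv
    simp
  · apply Finset.sum_congr rfl
    intro r _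
    unfold tab mv
    simp [hu]

/-- the class sizes as cardinalities -/
theorem xs_card {k : ℕ} (φ : Ix k → Fin 4) (j : Fin 4) (t : Fin k) :
    xs φ j t = ((univ.filter (fun r : Fin 5 => φ (false, r, t) = j)).card : ℤ) := by
  unfold xs tab
  rw [Finset.sum_boole]

/-- a colouring invariant under the involution of a class: impossible -/
theorem no_fixed {k : ℕ} (φ : Ix k → Fin 4) (t : Fin k) (ρ : Equiv.Perm (Fin 5))
    (h : ∀ a, ρ (ρ a) = a)
    (huniq : ∀ a b, φ (false, a, t) ≠ 3 → φ (false, b, t) ≠ 3 → ρ a = a → ρ b = b → a = b)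
    (hinv : ∀ r, φ (false, ρ r, t) = φ (false, r, t))
    (hodd : ∃ j1 j2 : Fin 4, j1 ≠ j2 ∧ j1 ≠ 3 ∧ j2 ≠ 3 ∧ Odd (xs φ j1 t) ∧ Odd (xs φ j2 t)) :
    False := by
  obtain ⟨j1, j2, h12, h13, h23, ho1, ho2⟩ := hodd
  rw [xs_card] at ho1 ho2
  have ho1' : Odd (univ.filter (fun r : Fin 5 => φ (false, r, t) = j1)).card := by
    exact_mod_cast ho1
  have ho2' : Odd (univ.filter (fun r : Fin 5 => φ (false, r, t) = j2)).card := by
    exact_mod_cast ho2
  obtain ⟨a, ha, hfa⟩ := fixed_of_odd ρ h _ (fun r hr => by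
    rw [Finset.mem_filter] at hr ⊢
    exact ⟨Finset.mem_univ _, by rw [hinv]; exact hr.2⟩) ho1'
  obtain ⟨b, hb, hfb⟩ := fixed_of_odd ρ h _ (fun r hr => by
    rw [Finset.mem_filter] at hr ⊢
    exact ⟨Finset.mem_univ _, by rw [hinv]; exact hr.2⟩) ho2'
  rw [Finset.mem_filter] at ha hb
  have hab := huniq a b (by rw [ha.2]; exact h13) (by rw [hb.2]; exact h23) hfa hfb
  apply h12
  rw [← ha.2, ← hb.2, hab]

/-- THE COUNT -/
theorem NM_dvd {k : ℕ} (hk : 2 ≤ k) (M : Finset (Ix k)) (hM : M ≠ univ) :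
    4 ∣ NM (ex k) (2 ^ (5 * k) - 1) M := by
  have hk0 : 0 < k := by omega
  unfold NM
  set X := (Fintype.piFinset (col M)).filter (fun φ => Valid (ex k) (2 ^ (5 * k) - 1) φ) with hX
  -- membership
  have hmem : ∀ φ, φ ∈ X ↔ (∀ i, φ i ∈ col M i) ∧ Valid (ex k) (2 ^ (5 * k) - 1) φ := by
    intro φ
    rw [hX, Finset.mem_filter, Fintype.mem_piFinset]
  have hcol : ∀ φ : Ix k → Fin 4, (∀ i, φ i ∈ col M i) ↔ (∀ i, φ i = 3 ↔ i ∉ M) := by
    intro φ
    apply forall_congr'
    intro i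
    unfold col
    by_cases hi : i ∈ M
    · rw [if_pos hi]
      constructor
      · intro h
        constructor
        · intro h3; rw [h3] at h; exact absurd h (by decide)
        · intro h'; exact absurd hi h'
      · intro h
        have h3 : φ i ≠ 3 := fun h' => (h.mp h') hi
        revert h3
        generalize φ i = c
        revert c
        decide
    · rw [if_neg hi, Finset.mem_singleton]
      constructor
      · intro h; exact ⟨fun _ => hi, fun _ => h⟩
      · intro h; exact h.mpr hi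
  have hstruct : ∀ φ ∈ X, (∀ r t, φ (false, r, t) = φ (true, r, t)) ∧
      (∀ t : Fin k, ∃ j1 j2 : Fin 4, j1 ≠ j2 ∧ j1 ≠ 3 ∧ j2 ≠ 3 ∧ Odd (xs φ j1 t) ∧
      Odd (xs φ j2 t)) := by
    intro φ hφ
    rw [hmem, hcol] at hφ
    apply valid_struct hk0 φ hφ.2
    have : ∃ i, i ∉ M := by
      by_contra hno
      push Not at hno
      exact hM (Finset.eq_univ_iff_forall.mpr hno)
    obtain ⟨i, hi⟩ := this
    exact ⟨i, (hφ.1 i).mpr hi⟩
  rcases X.eq_empty_or_nonempty with hXe | ⟨φ0, hφ0⟩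
  · rw [hXe]; simp
  -- `M` is symmetric
  have hMs : ∀ b r t, ((b, r, t) : Ix k) ∈ M ↔ ((false, r, t) : Ix k) ∈ M := by
    intro b r t
    have h1 := (hstruct φ0 hφ0).1 r t
    have h2 := (hcol φ0).mp ((hmem φ0).mp hφ0).1
    cases b
    · exact Iff.rfl
    · have h3 := h2 (true, r, t)
      have h4 := h2 (false, r, t)
      rw [h1] at h4
      have h5 := h3.symm.trans h4
      exact not_iff_not.mp h5
  let t0 : Fin k := ⟨0, by omega⟩
  let t1 : Fin k := ⟨1, by omega⟩
  have ht01 : t0 ≠ t1 := by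
    intro h
    have := congrArg Fin.val h
    simp only [t0, t1] at this
    omega
  have hρ : ∀ t : Fin k, ∃ ρ : Equiv.Perm (Fin 5), (∀ a, ρ (ρ a) = a) ∧
      (∀ a, ((false, ρ a, t) : Ix k) ∈ M ↔ ((false, a, t) : Ix k) ∈ M) ∧
      (∀ a b, ((false, a, t) : Ix k) ∈ M → ((false, b, t) : Ix k) ∈ M → ρ a = a → ρ b = b →
        a = b) := by
    intro t
    obtain ⟨ρ, h1, h2, h3, h4⟩ := invol_exists _
      (univ.filter (fun r : Fin 5 => ((false, r, t) : Ix k) ∈ M)) rfl
    refine ⟨ρ, h1, ?_, ?_⟩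
    · intro a
      constructor
      · intro h
        have := h3 (ρ a) (by rw [Finset.mem_filter]; exact ⟨Finset.mem_univ _, h⟩)
        rw [h1, Finset.mem_filter] at this
        exact this.2
      · intro h
        have := h3 a (by rw [Finset.mem_filter]; exact ⟨Finset.mem_univ _, h⟩)
        rw [Finset.mem_filter] at this
        exact this.2
    · intro a b ha hb hfa hfb
      exact h4 a (by rw [Finset.mem_filter]; exact ⟨Finset.mem_univ _, ha⟩) b
        (by rw [Finset.mem_filter]; exact ⟨Finset.mem_univ _, hb⟩) hfa hfb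
  choose ρ hρ1 hρ2 hρ3 using hρ
  let f : Fin k → (Ix k → Fin 4) → (Ix k → Fin 4) := fun t φ i => φ (mv t (ρ t) i)
  have hfX : ∀ t, ∀ φ ∈ X, f t φ ∈ X := by
    intro t φ hφ
    obtain ⟨hsym, -⟩ := hstruct φ hφ
    rw [hmem, hcol] at hφ ⊢
    obtain ⟨hc, hv⟩ := hφ
    constructor
    · rintro ⟨b, r, u⟩
      show φ (mv t (ρ t) (b, r, u)) = 3 ↔ _
      rw [hc]
      apply not_congr
      unfold mv
      show (b, (if u = t then (ρ t) r else r), u) ∈ M ↔ _
      by_cases hu : u = t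
      · subst hu
        rw [if_pos rfl, hMs, hρ2, ← hMs b]
      · rw [if_neg hu]
    · have hsym' : ∀ r u, f t φ (false, r, u) = f t φ (true, r, u) := by
        intro r u
        show φ (false, _, u) = φ (true, _, u)
        exact hsym _ _
      rw [valid_iff_size hk0 _ hsym']
      rw [valid_iff_size hk0 _ hsym] at hv
      intro j hj
      have := hv j hj
      have hx : ∀ u, xs (f t φ) j u = xs φ j u := fun u => xs_mv t (ρ t) φ j u
      simp only [hx]
      exact this
  have hnf : ∀ t, ∀ φ ∈ X, (∀ r, φ (false, (ρ t) r, t) = φ (false, r, t)) → False := by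
    intro t φ hφ hinv
    have hc := (hcol φ).mp ((hmem φ).mp hφ).1
    refine no_fixed φ t (ρ t) (hρ1 t) ?_ hinv ((hstruct φ hφ).2 t)
    intro a b ha hb hfa hfb
    apply hρ3 t a b _ _ hfa hfb
    · by_contra hno
      exact ha ((hc _).mpr hno)
    · by_contra hno
      exact hb ((hc _).mpr hno)
  apply four_dvd_card X (f t0) (f t1) (hfX t0) (hfX t1)
  · intro φ
    funext i
    show φ (mv t0 (ρ t0) (mv t0 (ρ t0) i)) = φ i
    rw [mv_mv _ _ (hρ1 t0)]
  · intro φ
    funext i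
    show φ (mv t1 (ρ t1) (mv t1 (ρ t1) i)) = φ i
    rw [mv_mv _ _ (hρ1 t1)]
  · intro φ
    funext i
    show φ (mv t1 (ρ t1) (mv t0 (ρ t0) i)) = φ (mv t0 (ρ t0) (mv t1 (ρ t1) i))
    rw [mv_comm _ _ _ _ ht01]
  · intro φ hφ hfix
    apply hnf t0 φ hφ
    intro r
    have := congrFun hfix (false, r, t0)
    have h2 : f t0 φ (false, r, t0) = φ (false, (ρ t0) r, t0) := by
      show φ (mv t0 (ρ t0) (false, r, t0)) = _
      unfold mv; simp
    rw [← h2, this]
  · intro φ hφ hfix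
    apply hnf t1 φ hφ
    intro r
    have := congrFun hfix (false, r, t1)
    have h2 : f t1 φ (false, r, t1) = φ (false, (ρ t1) r, t1) := by
      show φ (mv t1 (ρ t1) (false, r, t1)) = _
      unfold mv; simp
    rw [← h2, this]
  · intro φ hφ hfix
    apply hnf t0 φ hφ
    intro r
    have := congrFun hfix (false, r, t0)
    have h2 : f t0 (f t1 φ) (false, r, t0) = φ (false, (ρ t0) r, t0) := by
      show φ (mv t1 (ρ t1) (mv t0 (ρ t0) (false, r, t0))) = _
      unfold mv; simp [ht01]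
    rw [← h2, this]

end Dob
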