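import Mathlib
import Pool.Agent.Dob.Count

/-!
The number of representations of a point as a sum of three points of the graph of the
Dobbertin function is constant modulo four.
-/

open Finset

namespace Dob

section

variable {K : Type*} [Field K] [Fintype K] [DecidableEq K]

/-- The number of ordered representations of `(s, t)` as a sum of three points of the graph
of `F`. -/
def TN (F : K → K) (s t : K) : ℕ :=
  ((univ : Finset (K × K × K)).filter
    (fun p => p.1 + p.2.1 + p.2.2 = s ∧ F p.1 + F p.2.1 + F p.2.2 = t)).card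

/-- the exponent of two of a digit -/
def pw (k : ℕ) (i : Ix k) : ℕ := (i.2.2 : ℕ) + k * (i.2.1 : ℕ)

theorem pw_total {k : ℕ} (hk : 0 < k) :
    ∑ r : Fin 5, ∑ t : Fin k, 2 ^ ((t : ℕ) + k * (r : ℕ)) = 2 ^ (5 * k) - 1 := by
  have h := ext_V hk (fun _ _ => 1)
  have h1 : ext hk (fun _ _ => 1) = fun _ => 1 := rfl
  rw [h1, V_one] at h
  have hcast : (((2 ^ (5 * k) - 1 : ℕ)) : ℤ) = 2 ^ (5 * k) - 1 := by
    rw [Nat.cast_sub Nat.one_le_two_pow]; push_cast; ring
  have h2 : ((∑ r : Fin 5, ∑ t : Fin k, 2 ^ ((t : ℕ) + k * (r : ℕ)) : ℕ) : ℤ) =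
      ((2 ^ (5 * k) - 1 : ℕ) : ℤ) := by
    rw [hcast, h]
    push_cast
    simp
  exact_mod_cast h2

theorem prodJ {k : ℕ} (hk : 0 < k) (v : K) (b : Bool) :
    ∏ i ∈ (univ : Finset (Ix k)).filter (fun i => i.1 = b), v ^ (2 ^ pw k i) =
      v ^ (2 ^ (5 * k) - 1) := by
  rw [Finset.prod_pow_eq_pow_sum]
  congr 1
  rw [Finset.sum_filter, Fintype.sum_prod_type, Fintype.sum_bool]
  cases b
  · simp only [pw]
    simp only [Bool.true_eq_false, if_false, if_true, Finset.sum_const_zero, zero_add]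
    rw [Fintype.sum_prod_type]
    exact pw_total hk
  · simp only [pw]
    simp only [Bool.false_eq_true, if_false, if_true, Finset.sum_const_zero, add_zero]
    rw [Fintype.sum_prod_type]
    exact pw_total hk

/-- an integer that is four times an element of the lift is divisible by four -/
theorem int_dvd {R : Type*} [CommRing R] [CharP K 2] (L : Lift K R) (m : ℤ) (r : R)
    (h : (m : R) = 4 * r) : 4 ∣ m := by
  have key : ∀ (m : ℤ) (r : R), (m : R) = 2 * r → ∃ m', m = 2 * m' ∧ (m' : R) = r := by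
    intro m r h
    have h1 : L.π (m : R) = 0 := by
      rw [h, map_mul]
      have : L.π (2 : R) = 0 := by
        rw [map_ofNat]; exact CharTwo.two_eq_zero
      rw [this, zero_mul]
    rw [map_intCast] at h1
    have h2 : (2 : ℤ) ∣ m := by
      have := (CharP.intCast_eq_zero_iff K 2 m).mp h1
      exact_mod_cast this
    obtain ⟨m', hm'⟩ := h2
    refine ⟨m', hm', ?_⟩
    have h3 : 2 * ((m' : R) - r) = 0 := by
      rw [mul_sub, ← h, hm']; push_cast; ring
    exact sub_eq_zero.mp (L.reg _ h3)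
  obtain ⟨m1, h1, h2⟩ := key m (2 * r) (by rw [h]; ring)
  obtain ⟨m2, h3, _⟩ := key m1 r h2
  exact ⟨m2, by rw [h1, h3]; ring⟩

theorem not_dvd_ex {k : ℕ} (hk : 0 < k) (i : Ix k) : ¬ (2 ^ (5 * k) - 1) ∣ ex k i := by
  intro h
  have h32 : 32 ≤ 2 ^ (5 * k) := by
    calc 32 = 2 ^ 5 := by norm_num
      _ ≤ 2 ^ (5 * k) := Nat.pow_le_pow_right (by norm_num) (by omega)
  have hodd : Nat.Coprime (2 ^ (5 * k) - 1) 2 := by
    have h1 : Even (2 ^ (5 * k)) := (Nat.even_pow.mpr ⟨even_two, by omega⟩)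
    have h2 : Odd (2 ^ (5 * k) - 1) := Nat.Even.sub_odd (by omega) h1 odd_one
    exact h2.coprime_two_right
  unfold ex at h
  have h1 := (Nat.Coprime.pow_right ((i.2.2 : ℕ) + k * (i.2.1 : ℕ)) hodd).dvd_of_dvd_mul_right h
  by_cases hb : i.1 = true
  · rw [if_pos hb] at h1
    -- q - 1 divides nu - 2
    have h2 : ((2 : ℤ) ^ (5 * k) - 1) ∣ (dp k : ℤ) := by
      have : (((2 ^ (5 * k) - 1 : ℕ)) : ℤ) ∣ (dp k : ℤ) := Int.natCast_dvd_natCast.mpr h1
      rwa [Nat.cast_sub Nat.one_le_two_pow, Nat.cast_pow, Nat.cast_ofNat, Nat.cast_one] at this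
    rw [dp_cast] at h2
    have h3 : ((2 : ℤ) ^ (5 * k) - 1) ∣ (nu k : ℤ) - 2 := by
      have h4 : (nu k : ℤ) - 2 = 2 * ((nu k : ℤ) * 2 ^ (5 * k - 1) - 1) -
          (nu k : ℤ) * (2 ^ (5 * k) - 1) := by
        have : (2 : ℤ) ^ (5 * k) = 2 * 2 ^ (5 * k - 1) := by
          rw [← pow_succ', Nat.sub_add_cancel (by omega)]
        rw [this]; ring
      rw [h4]
      exact dvd_sub (h2.mul_left 2) (Dvd.intro_left _ rfl)
    have hQ : (2 : ℤ) ≤ 2 ^ k := by
      calc (2 : ℤ) = 2 ^ 1 := by norm_num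
        _ ≤ 2 ^ k := pow_le_pow_right₀ (by norm_num) hk
    have hnu2 : 0 < (nu k : ℤ) - 2 := by
      unfold nu
      push_cast
      nlinarith [pow_pos (by linarith : (0 : ℤ) < 2 ^ k) 2, pow_pos (by linarith : (0 : ℤ) < 2 ^ k) 3,
        pow_pos (by linarith : (0 : ℤ) < 2 ^ k) 4]
    have hle := Int.le_of_dvd hnu2 h3
    have hmul := nu_mul k
    nlinarith
  · rw [if_neg hb] at h1
    have := Nat.le_of_dvd (by norm_num) h1
    omega

/-- THE MODULAR CONSTANCY -/
theorem TN_mod (k : ℕ) (hk : 2 ≤ k) (hK : Fintype.card K = 2 ^ (5 * k)) (s0 t0 s1 t1 : K) :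
    (4 : ℤ) ∣ (TN (fun x : K => x ^ dp k) s0 t0 : ℤ) - (TN (fun x : K => x ^ dp k) s1 t1 : ℤ) := by
  have hk0 : 0 < k := by omega
  have hchar : CharP K 2 := charP_of_card_eq_prime_pow hK
  have hq : 4 ∣ Fintype.card K := by
    rw [hK]
    exact Dvd.dvd.trans (by norm_num : 4 ∣ 2 ^ 2) (pow_dvd_pow 2 (by omega))
  let L := wittLift K
  -- the main congruence at a point
  have main : ∀ s t : K, ∃ r : WittVector 2 K,
      (TN (fun x : K => x ^ dp k) s t : WittVector 2 K) = Om L (ex k) (univ : Finset (Ix k)) +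
        4 * r := by
    intro s t
    set J0 : Finset (Ix k) := univ.filter (fun i => i.1 = false) with hJ0
    set J1 : Finset (Ix k) := univ.filter (fun i => i.1 = true) with hJ1
    let bb : Ix k → WittVector 2 K := fun i => L.τ (if i.1 then t else s) ^ (2 ^ pw k i)
    have hcard1 : Fintype.card K - 1 = 2 ^ (5 * k) - 1 := by rw [hK]
    have hvp : ∀ v : K, v ^ (2 ^ (5 * k) - 1) = if v = 0 then 0 else 1 := by
      intro v
      by_cases hv : v = 0
      · rw [if_pos hv, hv, zero_pow]
        have : 2 ≤ 2 ^ (5 * k) := by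
          calc 2 = 2 ^ 1 := by norm_num
            _ ≤ 2 ^ (5 * k) := Nat.pow_le_pow_right (by norm_num) (by omega)
        omega
      · rw [if_neg hv, ← hcard1]
        exact FiniteField.pow_card_sub_one_eq_one v hv
    have hp0 : ∀ x y z : K, L.π (∏ i ∈ J0, ((L.τ x ^ ex k i + L.τ y ^ ex k i + L.τ z ^ ex k i) +
        bb i)) = (x + y + z + s) ^ (2 ^ (5 * k) - 1) := by
      intro x y z
      rw [map_prod, ← prodJ hk0 (x + y + z + s) false]
      apply Finset.prod_congr rfl
      intro i hi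
      have hi1 : i.1 = false := (Finset.mem_filter.mp hi).2
      have he : ex k i = 2 ^ pw k i := by
        unfold ex pw; rw [hi1]; simp
      simp only [map_add, map_pow, bb, L.πτ, he]
      rw [hi1, add_pow_char_pow, add_pow_char_pow, add_pow_char_pow]
      simp
    have hp1 : ∀ x y z : K, L.π (∏ i ∈ J1, ((L.τ x ^ ex k i + L.τ y ^ ex k i + L.τ z ^ ex k i) +
        bb i)) = (x ^ dp k + y ^ dp k + z ^ dp k + t) ^ (2 ^ (5 * k) - 1) := by
      intro x y z
      rw [map_prod, ← prodJ hk0 (x ^ dp k + y ^ dp k + z ^ dp k + t) true]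
      apply Finset.prod_congr rfl
      intro i hi
      have hi1 : i.1 = true := (Finset.mem_filter.mp hi).2
      have he : ex k i = dp k * 2 ^ pw k i := by
        unfold ex pw; rw [hi1]; simp
      simp only [map_add, map_pow, bb, L.πτ, he]
      rw [hi1, add_pow_char_pow, add_pow_char_pow, add_pow_char_pow]
      simp [pow_mul]
    have hN : ∀ M : Finset (Ix k), M ≠ univ → 4 ∣ NM (ex k) (Fintype.card K - 1) M := by
      intro M hM
      rw [hcard1]
      exact NM_dvd hk M hM
    obtain ⟨r, hr⟩ := count_mod L (ex k) hq (ex_pos hk0)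
      (fun i => by rw [hcard1]; exact not_dvd_ex hk0 i) hN J0 J1
      (by
        rw [Finset.disjoint_left]
        intro i hi hi'
        rw [hJ0, Finset.mem_filter] at hi
        rw [hJ1, Finset.mem_filter] at hi'
        have := hi.2.symm.trans hi'.2
        exact Bool.false_ne_true this)
      (by
        ext i
        simp only [hJ0, hJ1, Finset.mem_union, Finset.mem_filter, Finset.mem_univ, true_and,
          iff_true]
        cases i.1 <;> simp)
      ⟨(false, 0, ⟨0, hk0⟩), by simp [hJ0]⟩ ⟨(true, 0, ⟨0, hk0⟩), by simp [hJ1]⟩ bb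
      (fun x y z => x + y + z = s ∧ x ^ dp k + y ^ dp k + z ^ dp k = t)
      (by
        intro x y z
        rw [map_mul, map_add, map_add, map_one, hp0, hp1, hvp, hvp]
        have e1 : (if x + y + z + s = 0 then (0 : K) else 1) =
            if x + y + z = s then 0 else 1 := by simp only [CharTwo.add_eq_zero]
        have e2 : (if x ^ dp k + y ^ dp k + z ^ dp k + t = 0 then (0 : K) else 1) =
            if x ^ dp k + y ^ dp k + z ^ dp k = t then 0 else 1 := by
          simp only [CharTwo.add_eq_zero]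
        rw [e1, e2]
        have e3 : (1 : K) + 1 = 0 := CharTwo.add_self_eq_zero 1
        by_cases h1 : x + y + z = s
        · by_cases h2 : x ^ dp k + y ^ dp k + z ^ dp k = t
          · rw [if_pos h1, if_pos h2, if_pos ⟨h1, h2⟩]
            ring
          · rw [if_pos h1, if_neg h2, if_neg (fun h => h2 h.2), e3, mul_zero]
        · rw [if_neg h1, if_neg (fun (h : _ ∧ _) => h1 h.1), e3, zero_mul])
      (by
        intro x y z
        rw [add_comm x y, add_comm (x ^ dp k) (y ^ dp k)])
      (by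
        have hset : (univ : Finset (K × K)).filter
            (fun p => p.1 + p.1 + p.2 = s ∧ p.1 ^ dp k + p.1 ^ dp k + p.2 ^ dp k = t) =
            (univ : Finset K) ×ˢ (univ.filter (fun z : K => z = s ∧ z ^ dp k = t)) := by
          ext ⟨x, z⟩
          simp only [Finset.mem_filter, Finset.mem_univ, true_and, Finset.mem_product]
          rw [CharTwo.add_self_eq_zero, CharTwo.add_self_eq_zero, zero_add, zero_add]
        rw [hset, Finset.card_product, Finset.card_univ]
        exact hq.mul_right _)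
    exact ⟨r, hr⟩
  obtain ⟨r0, hr0⟩ := main s0 t0
  obtain ⟨r1, hr1⟩ := main s1 t1
  apply int_dvd L _ (r0 - r1)
  push_cast
  rw [hr0, hr1]
  ring

end

end Dob
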